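import Pool.Agent.H67.SW.Var

/-!
# Module K4: the second moment of the primes in every window

PROOF. `0 ≤ ρ` (`pc ≥ 0`, `N/log N > 0`). `∑_{n ∈ Ioc A (A+N)} pc n h ≤ h (pc A N + h)`: exchange the sums, a prime `p` is counted for at most `h` values of `n`, all in `(A, A + N + h]`
(or: `∑_n pc n h = ∑_{i ≤ h} pc (A+i) N`, `pc_eq_sum`, and `pc (A+i) N ≤ pc A N + i`). Let `μ = h/log N`, `S = ∑ pc²`, and `G, M` from `varW ε'`. `S ≤ ∑ pc G = M ∑ pc + ∑ pc (G - M)` (`0 ≤ pc ≤ G`) and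
`pc (G - M) ≤ t pc² + (G-M)²/(4t)`, so `(1-t) S ≤ M h (ρ N/log N + h) + ε' μ² N/(4t)`, `M h ρ N/log N ≤ (4+ε') ρ μ² N`, `M h² ≤ 5 μ h² = 5 μ² h log N ≤ ε' μ² N` for large `N`
(`h log N ≤ (κ+1) (log N)²`). Take `ε ≤ 1` without loss (`ρ ≥ 0`: the bound increases with `ε`), `t = ε/64`, `ε' = ε²/400` or so: `(4+ε')/(1-t) ≤ 4 + ε`, `(ε' + ε'/(4t))/(1-t) ≤ ε`.
-/

set_option autoImplicit false

namespace Pool.Agent.H67.SW

open Finset Filter Topology Pool.Agent.H5.Short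

private theorem k4_cnt (A N h : ℕ) :
    ∑ n ∈ Ioc A (A + N), (pc n h : ℝ) ≤ h * ((pc A N : ℝ) + h) := by
  classical
  have h1 : ∑ n ∈ Ioc A (A + N), (pc n h : ℝ) =
      ∑ i ∈ Icc 1 h, ∑ n ∈ Ioc A (A + N), (if (n + i).Prime then (1 : ℝ) else 0) := by
    rw [sum_comm]
    exact sum_congr rfl fun n _ => pc_eq_sum n h
  rw [h1]
  have h2 : ∀ i ∈ Icc 1 h, ∑ n ∈ Ioc A (A + N), (if (n + i).Prime then (1 : ℝ) else 0) ≤
      (pc A N : ℝ) + h := by
    intro i hi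
    rw [mem_Icc] at hi
    rw [sum_boole]
    have h3 : ((Ioc A (A + N)).filter fun n => (n + i).Prime).card ≤
        (((Ioc A (A + N)).filter Nat.Prime) ∪ Ioc (A + N) (A + N + i)).card := by
      apply card_le_card_of_injOn (fun n => n + i)
      · intro n hn
        rw [mem_coe, mem_filter, mem_Ioc] at hn
        rw [mem_coe, mem_union, mem_filter, mem_Ioc, mem_Ioc]
        beta_reduce
        rcases Nat.lt_or_ge (A + N) (n + i) with h4 | h4
        · right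
          omega
        · left
          exact ⟨⟨by omega, h4⟩, hn.2⟩
      · intro a _ b _ hab
        simpa using hab
    have h4 := h3.trans (card_union_le _ _)
    rw [Nat.card_Ioc] at h4
    have h5 : ((Ioc A (A + N)).filter fun n => (n + i).Prime).card ≤ pc A N + h := by
      unfold pc
      omega
    exact_mod_cast h5
  refine (sum_le_sum h2).trans (le_of_eq ?_)
  rw [sum_const, Nat.card_Icc, nsmul_eq_mul, Nat.add_sub_cancel]

private theorem k4_main (ε t e μ W M S P L ρ N h : ℝ) (hε0 : 0 < ε) (hε1 : ε ≤ 1) (ht : t = ε / 64)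
    (he : e = ε ^ 2 / 400) (hρ : 0 ≤ ρ) (hμ : μ = h / L) (hL : 0 < L) (hh : 0 ≤ h) (hN : 0 ≤ N)
    (hM0 : 0 ≤ M) (hM : M ≤ (4 + e) * μ) (hW : W = μ ^ 2 * N) (hP : P ≤ ρ * (N / L))
    (hhh : 5 * (h * L) ≤ e * N)
    (hS : (1 - t) * S ≤ M * (h * (P + h)) + e * W / (4 * t)) : S ≤ ((4 + ε) * ρ + ε) * W := by
  have ht0 : 0 < t := by rw [ht]; positivity
  have ht1 : t ≤ 1 / 64 := by rw [ht]; linarith
  have he0 : 0 < e := by rw [he]; positivity
  have he1 : e ≤ 1 := by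
    rw [he]
    nlinarith
  have hμ0 : 0 ≤ μ := by rw [hμ]; positivity
  have hW0 : 0 ≤ W := by rw [hW]; positivity
  have hμL : μ * L = h := by rw [hμ]; field_simp
  have h1 : M * (h * P) ≤ (4 + e) * ρ * W := by
    have h2 : h * P ≤ h * (ρ * (N / L)) := mul_le_mul_of_nonneg_left hP hh
    have h3 : M * (h * P) ≤ M * (h * (ρ * (N / L))) := mul_le_mul_of_nonneg_left h2 hM0
    have h4 : M * (h * (ρ * (N / L))) ≤ (4 + e) * μ * (h * (ρ * (N / L))) :=
      mul_le_mul_of_nonneg_right hM (by positivity)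
    have h5 : (4 + e) * μ * (h * (ρ * (N / L))) = (4 + e) * ρ * W := by
      rw [hW, hμ]
      ring
    linarith
  have h2 : M * (h * h) ≤ e * W := by
    have h3 : M ≤ 5 * μ := hM.trans (mul_le_mul_of_nonneg_right (by linarith) hμ0)
    have h4 : M * (h * h) ≤ 5 * μ * (h * h) := mul_le_mul_of_nonneg_right h3 (by positivity)
    have h5 : 5 * μ * (h * h) = μ * μ * (5 * (h * L)) := by
      rw [← hμL]
      ring
    have h6 : μ * μ * (5 * (h * L)) ≤ μ * μ * (e * N) := mul_le_mul_of_nonneg_left hhh (by positivity)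
    have h7 : μ * μ * (e * N) = e * W := by
      rw [hW]
      ring
    linarith
  have h3 : e * W / (4 * t) = ε / 25 * W := by
    rw [he, ht]
    field_simp
    ring
  have h4 : (1 - t) * S ≤ (1 - t) * (((4 + ε) * ρ + ε) * W) := by
    have h5 : (1 - t) * S ≤ (4 + e) * ρ * W + e * W + ε / 25 * W := by
      rw [h3] at hS
      have : M * (h * (P + h)) = M * (h * P) + M * (h * h) := by ring
      linarith
    refine h5.trans ?_
    have h6 : 4 + e ≤ (1 - t) * (4 + ε) := by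
      rw [ht, he]
      nlinarith
    have h7 : e + ε / 25 ≤ (1 - t) * ε := by
      rw [ht, he]
      nlinarith
    have h8 : 0 ≤ ρ * W := mul_nonneg hρ hW0
    have h9 := mul_le_mul_of_nonneg_right h6 h8
    have h10 := mul_le_mul_of_nonneg_right h7 hW0
    nlinarith
  exact le_of_mul_le_mul_left h4 (by linarith)

theorem k4 (ε : ℝ) (hε : 0 < ε) : ∃ κ0 : ℝ, 1 ≤ κ0 ∧ ∀ κ : ℝ, κ0 ≤ κ → ∃ N0 : ℕ, ∀ N : ℕ, N0 ≤ N →
    ∀ h : ℕ, κ * Real.log N ≤ h → (h : ℝ) ≤ κ * Real.log N + 1 → ∀ A : ℕ, N ≤ A → ∀ ρ : ℝ,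
    (pc A N : ℝ) ≤ ρ * (N / Real.log N) →
    ∑ n ∈ Ioc A (A + N), (pc n h : ℝ) ^ 2 ≤ ((4 + ε) * ρ + ε) * ((h / Real.log N) ^ 2 * N) := by
  obtain ⟨ε0, hε0⟩ : ∃ ε0 : ℝ, ε0 = min ε 1 := ⟨_, rfl⟩
  have hε00 : 0 < ε0 := by rw [hε0]; exact lt_min hε one_pos
  have hε01 : ε0 ≤ 1 := by rw [hε0]; exact min_le_right _ _
  have hε0e : ε0 ≤ ε := by rw [hε0]; exact min_le_left _ _
  obtain ⟨e, he⟩ : ∃ e : ℝ, e = ε0 ^ 2 / 400 := ⟨_, rfl⟩
  have he0 : 0 < e := by rw [he]; positivity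
  have he1 : e ≤ 1 := by
    rw [he]
    nlinarith
  obtain ⟨t, ht⟩ : ∃ t : ℝ, t = ε0 / 64 := ⟨_, rfl⟩
  have ht0 : 0 < t := by rw [ht]; positivity
  obtain ⟨κ0, hκ0, hvar⟩ := varW e he0 he1
  refine ⟨κ0, hκ0, fun κ hκ => ?_⟩
  have hκ1 : 1 ≤ κ := hκ0.trans hκ
  obtain ⟨N1, hN1⟩ := hvar κ hκ
  have ev := (Real.isLittleO_pow_log_id_atTop (n := 2)).bound (show 0 < e / (5 * (κ + 1)) by positivity)
  obtain ⟨x2, hx2⟩ := eventually_atTop.1 ev
  refine ⟨max N1 (max 3 ⌈x2⌉₊), fun N hN h hh1 hh2 A hA ρ hρ => ?_⟩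
  have hNN1 : N1 ≤ N := (le_max_left _ _).trans hN
  have hN3 : 3 ≤ N := (le_max_left _ _).trans ((le_max_right _ _).trans hN)
  have hNx : x2 ≤ N := (Nat.le_ceil _).trans (by
    exact_mod_cast (le_max_right _ _).trans ((le_max_right _ _).trans hN))
  obtain ⟨G, M, hM0, hM, hG, hV⟩ := hN1 N hNN1 h hh1 hh2 A hA
  have hNr : (3 : ℝ) ≤ N := by exact_mod_cast hN3
  have hL1 : 1 ≤ Real.log N := by
    rw [Real.le_log_iff_exp_le (by linarith)]
    linarith [Real.exp_one_lt_d9]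
  obtain ⟨L, hL⟩ : ∃ L : ℝ, L = Real.log N := ⟨_, rfl⟩
  rw [← hL] at hL1 hh1 hh2 hM hV hρ ⊢
  have hL0 : 0 < L := by linarith
  have hρ0 : 0 ≤ ρ := by
    by_contra hneg
    push Not at hneg
    have h1 : ρ * (N / L) < 0 := mul_neg_of_neg_of_pos hneg (by positivity)
    have h2 : (0 : ℝ) ≤ pc A N := Nat.cast_nonneg _
    linarith
  have hbig : 5 * ((h : ℝ) * L) ≤ e * N := by
    have h1 := hx2 N hNx
    rw [Real.norm_eq_abs, ← hL, abs_of_nonneg (by positivity)] at h1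
    rw [Real.norm_eq_abs, id, abs_of_nonneg (by linarith)] at h1
    have h2 : (h : ℝ) ≤ (κ + 1) * L := by nlinarith
    have h3 : (h : ℝ) * L ≤ (κ + 1) * L * L := mul_le_mul_of_nonneg_right h2 hL0.le
    have h4 : 5 * ((κ + 1) * L ^ 2) ≤ 5 * ((κ + 1) * (e / (5 * (κ + 1)) * N)) := by
      have h5 : 0 ≤ κ + 1 := by linarith
      have := mul_le_mul_of_nonneg_left h1 h5
      linarith
    have h5 : 5 * ((κ + 1) * (e / (5 * (κ + 1)) * N)) = e * N := by
      field_simp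
    nlinarith
  have hS : (1 - t) * ∑ n ∈ Ioc A (A + N), (pc n h : ℝ) ^ 2 ≤
      M * (h * ((pc A N : ℝ) + h)) + e * ((h / L) ^ 2 * N) / (4 * t) := by
    have hpt : ∀ n ∈ Ioc A (A + N), (1 - t) * (pc n h : ℝ) ^ 2 ≤
        M * (pc n h : ℝ) + (G n - M) ^ 2 / (4 * t) := by
      intro n hn
      have h1 := hG n hn
      have h2 : (0 : ℝ) ≤ pc n h := Nat.cast_nonneg _
      have h3 : (pc n h : ℝ) ^ 2 ≤ (pc n h : ℝ) * G n := by
        rw [sq]
        exact mul_le_mul_of_nonneg_left h1 h2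
      have h4 : (pc n h : ℝ) * (G n - M) ≤ t * (pc n h : ℝ) ^ 2 + (G n - M) ^ 2 / (4 * t) := by
        have h5 : 0 ≤ (2 * t * (pc n h : ℝ) - (G n - M)) ^ 2 / (4 * t) := by positivity
        have h6 : (2 * t * (pc n h : ℝ) - (G n - M)) ^ 2 / (4 * t) =
            t * (pc n h : ℝ) ^ 2 + (G n - M) ^ 2 / (4 * t) - (pc n h : ℝ) * (G n - M) := by
          field_simp
          ring
        linarith
      nlinarith
    have h1 := sum_le_sum hpt
    rw [← mul_sum, sum_add_distrib, ← mul_sum, ← sum_div] at h1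
    refine h1.trans (add_le_add (mul_le_mul_of_nonneg_left (k4_cnt A N h) hM0) ?_)
    exact div_le_div_of_nonneg_right hV (by positivity)
  have hfin := k4_main ε0 t e (h / L) ((h / L) ^ 2 * N) M _ (pc A N) L ρ N h hε00 hε01 ht he hρ0 rfl hL0
    (Nat.cast_nonneg _) (Nat.cast_nonneg _) hM0 hM rfl hρ hbig hS
  refine hfin.trans ?_
  apply mul_le_mul_of_nonneg_right _ (by positivity)
  nlinarith

end Pool.Agent.H67.SW
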