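import Pool.Agent.H1.PS.Def
import Pool.Agent.H24.AB.Defs

/-!
# Selberg weights on numbers without small prime factors, in every window (MP_31d0eb_nt, explicit constant in R for windows): definitions

GOAL (modules `Var`, `K4`): for `N` large, EVERY `A ≥ N` and `h = κ log N`: `∑_{A < n ≤ A + N} π(n, n+h)² ≤ ((4+ε) ρ + ε) h² N/(log N)²`, `ρ = π(A, A+N) log N/N`.
PLAN: `π(n, n+h) ≤ G(n) = ∑_{i ≤ h} g(n+i)`, `g(m) = nz z R m` if `m` has no prime factor `< z = N^a`, else `0`; `nz` = square of Selberg's weights of level `R = N^(1/4-η)` on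
squarefree numbers whose prime factors are all `≥ z`. Mean `M = h V/Sz ≤ (4+ε) h/log N` (`V = ∏_{p<z}(1-1/p)`; module `Lz`), variance `≤ ε (h/log N)² + C h/log N`.
-/

set_option autoImplicit false

namespace Pool.Agent.H67.SW

open Finset

/-- no prime factor `< z` -/
def rg (z : ℝ) (n : ℕ) : Prop := ∀ p : ℕ, p.Prime → p ∣ n → z ≤ (p : ℝ)

open Classical in
/-- `μ²(m) / φ(m)` on the numbers without prime factor `< z` -/
noncomputable def gz (z : ℝ) (m : ℕ) : ℝ := if Squarefree m ∧ rg z m then 1 / (Nat.totient m : ℝ) else 0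

/-- Selberg's sum -/
noncomputable def Sz (z : ℝ) (R : ℕ) : ℝ := ∑ m ∈ Icc 1 R, gz z m

/-- the part over the multiples of `d` -/
noncomputable def Gz (z : ℝ) (R d : ℕ) : ℝ := ∑ m ∈ (Icc 1 R).filter (fun m => d ∣ m), gz z m

/-- Selberg's weights -/
noncomputable def lz (z : ℝ) (R d : ℕ) : ℝ := (ArithmeticFunction.moebius d : ℝ) * d * Gz z R d / Sz z R

/-- the square -/
noncomputable def nz (z : ℝ) (R n : ℕ) : ℝ := (∑ d ∈ (Icc 1 R).filter (fun d => d ∣ n), lz z R d) ^ 2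

/-- the mean value of the fourth power -/
noncomputable def E4 (z : ℝ) (R : ℕ) : ℝ :=
  ∑ d1 ∈ Icc 1 R, ∑ d2 ∈ Icc 1 R, ∑ d3 ∈ Icc 1 R, ∑ d4 ∈ Icc 1 R,
    lz z R d1 * lz z R d2 * (lz z R d3 * lz z R d4) / (((d1.lcm d2).lcm (d3.lcm d4) : ℕ) : ℝ)

end Pool.Agent.H67.SW
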