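import Pool.Agent.H1.PS.Two
import Pool.Agent.H67.SW.Def

/-!
# Module Cls: the law for one residue class, for an arbitrary set of integers with level of distribution

PROOF: `H1/PS/Cls.lean` with a general set `T` and power saving errors.
-/

set_option autoImplicit false

namespace Pool.Agent.H67.SW

open Finset Filter Pool.Agent.H92.MM Pool.Agent.H95.FL Pool.Agent.H11.RG Pool.Agent.H96.UL

private theorem exp_small (a : ℝ) (ha : 0 < a) : Real.exp (-(1 / a)) ≤ a := by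
  rw [Real.exp_neg, inv_eq_one_div, div_le_iff₀ (Real.exp_pos _)]
  have h1 : 1 / a ≤ Real.exp (1 / a) := by
    have := Real.add_one_le_exp (1 / a)
    linarith
  calc (1 : ℝ) = a * (1 / a) := by field_simp
    _ ≤ a * Real.exp (1 / a) := mul_le_mul_of_nonneg_left h1 ha.le

open Classical in
theorem clsW (e c : ℝ) (he : 0 < e) (hc : 0 < c) (hc1 : c ≤ 1) : ∃ a1 : ℝ, 0 < a1 ∧ a1 ≤ 1 / 20 ∧ ∀ a : ℝ, 0 < a → a ≤ a1 →
    ∀ c1 : ℝ, 0 < c1 →
    ∀ (ι : Type) [Fintype ι] [DecidableEq ι] [Nonempty ι], Fintype.card ι ≤ 2 →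
    ∃ w0 : ℕ, ∀ w : ℕ, w0 ≤ w → ∀ B : ℝ, ∀ᶠ x : ℝ in atTop,
      ∀ (T : Finset ℕ) (h : ι → ℕ) (W b : ℕ) (Φ : ℕ → ℝ) (X : ℝ), 0 ≤ X → (∀ n, 0 ≤ Φ n) →
      Dist T Φ X x (x ^ a) (x ^ (1 - c1)) (x ^ (1 - c)) → Okk B w x h W b →
        |∑ N ∈ T.filter (fun N => Adm x a h W b N), Φ N -
          X / W * vv (fun p => (Fintype.card ι : ℝ) / p) (PP x a W)| ≤
        e * (X / W * vv (fun p => (Fintype.card ι : ℝ) / p) (PP x a W)) +
          (x ^ (1 - c1 / 2) + x ^ (1 - c / 2)) := by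
  obtain ⟨c0, hc0, hc01, hfund⟩ := fundamental (c / 8) 1 (by positivity) one_pos
  refine ⟨min (min (c0 / 2) (1 / 20)) (e / 6), by positivity,
    (min_le_left _ _).trans (min_le_right _ _), ?_⟩
  intro a ha ha1 c1 hc10 ι _ _ _ hι
  have ha2 : a ≤ c0 / 2 := ha1.trans ((min_le_left _ _).trans (min_le_left _ _))
  have ha3 : a ≤ 1 / 20 := ha1.trans ((min_le_left _ _).trans (min_le_right _ _))
  have ha4 : a ≤ e / 6 := ha1.trans (min_le_right _ _)
  have hK1 : 1 ≤ Fintype.card ι := Fintype.card_pos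
  have hK0 : (0 : ℝ) < (Fintype.card ι : ℝ) := by exact_mod_cast hK1
  have hK2 : (Fintype.card ι : ℝ) ≤ 2 := by exact_mod_cast hι
  have hac0 : a ≤ c0 / Fintype.card ι := by
    refine ha2.trans ?_
    exact div_le_div_of_nonneg_left hc0.le hK0 hK2
  obtain ⟨w0, hw0, hfund⟩ := hfund (Fintype.card ι) hK1
  obtain ⟨x0, hx0, hfund⟩ := hfund a ha hac0
  refine ⟨max w0 (2 * Fintype.card ι), ?_⟩
  intro w hw B
  have hww0 : w0 ≤ w := (le_max_left _ _).trans hw
  have hw2K : 2 * Fintype.card ι ≤ w := (le_max_right _ _).trans hw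
  have hvb := Pool.Agent.H96.UL.vb (Fintype.card ι) w hw2K a (c1 / 4) ha (by linarith) (by positivity)
  have evW := log_lt B (c / 8) (by positivity)
  have evw := log_lt B a ha
  have ev1 : ∀ᶠ x : ℝ in atTop, (3 : ℝ) ≤ x ^ (c1 / 4) :=
    (tendsto_rpow_atTop (by positivity)).eventually_ge_atTop _
  have ev2 : ∀ᶠ x : ℝ in atTop, (3 : ℝ) ≤ x ^ (c / 8) :=
    (tendsto_rpow_atTop (by positivity)).eventually_ge_atTop _
  filter_upwards [hvb, evW, evw, ev1, ev2, eventually_ge_atTop x0] with x hvb evW0 evw ev1 ev2 hxx0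
  intro T h W b Φ X hX hΦ hD hok
  have hx3 : 3 ≤ x := hx0.trans hxx0
  have hx1 : 1 ≤ x := by linarith
  have hxp : 0 < x := by linarith
  have hW : 0 < W := hok.W_pos
  have hWR : (0 : ℝ) < W := by exact_mod_cast hW
  have hW1 : (1 : ℝ) ≤ W := by exact_mod_cast hW
  have evW : (W : ℝ) ≤ x ^ (c / 8) := hok.wle.trans evW0.le
  have hvb := hvb W hok.pw
  obtain ⟨P, hPd⟩ : ∃ P, P = PP x a W := ⟨_, rfl⟩
  have hPp : ∀ p ∈ P, p.Prime ∧ ¬ p ∣ W ∧ (p : ℝ) < x ^ a ∧ w < p := by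
    intro p hp
    rw [hPd] at hp
    obtain ⟨h2, h3, h4⟩ := mem_PP.1 hp
    exact ⟨h3, h4, h2, prim_gt hok.pw h3 h4⟩
  obtain ⟨fl, fu, hsand⟩ := hfund x hxx0 P (fun p hp =>
    ⟨(hPp p hp).1, by have := (hPp p hp).2.2.2; omega, (hPp p hp).2.2.1.le⟩)
  have hs := hsand (fun p => (Fintype.card ι : ℝ) / p) (fun p hp => by
    have h2 : (0 : ℝ) < p := by exact_mod_cast (hPp p hp).1.pos
    constructor
    · positivity
    · apply div_le_div_of_nonneg_right _ h2.le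
      linarith)
  have hzW : ∀ p : ℕ, p.Prime → p ∣ W → (p : ℝ) < x ^ a := by
    intro p hp hpW
    have h3 := hok.p_le hpW
    linarith
  have hdif : ∀ p ∈ P, ∀ i j, i ≠ j → ¬ (p : ℤ) ∣ (h i : ℤ) - h j :=
    fun p hp => hok.ndvd (hPp p hp).1 (hPp p hp).2.1
  have key := poly_gen hD hD (fun N _ => (abs_of_nonneg (hΦ N)).le) (abs_of_nonneg hX).le (by positivity)
    (by positivity) h W b P hW
    (fun p hp => ⟨(hPp p hp).1, (hPp p hp).2.1⟩) hdif hzW
    (fun p hp => (hPp p hp).2.2.1) (x ^ (c / 8))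
    (Real.exp (-(1 / a))) fl fu hs (univ : Finset Unit) (fun _ => 1) (fun _ => 0)
    (fun _ _ => one_pos) (fun _ _ => Nat.coprime_one_right W)
    (fun k _ p hp hpd => (hPp p hp).1.one_lt.ne' (Nat.dvd_one.1 hpd))
    (fun k _ p hp hpd => absurd (Nat.dvd_one.1 hpd) hp.one_lt.ne')
    (fun k _ => by
      rw [Nat.cast_one, mul_one]
      calc (W : ℝ) * x ^ (c / 8)
          ≤ x ^ (c / 8) * x ^ (c / 8) := by gcongr
        _ = x ^ (c / 8 + c / 8) := by
            rw [Real.rpow_add hxp]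
        _ ≤ x ^ (1 : ℝ) := Real.rpow_le_rpow_of_exponent_le hx1 (by linarith)
        _ = x := Real.rpow_one x)
  obtain ⟨V, hVd⟩ : ∃ V, V = vv (fun p => (Fintype.card ι : ℝ) / p) P := ⟨_, rfl⟩
  obtain ⟨U, hUd⟩ : ∃ U, U = ∏ p ∈ P, (1 + (Fintype.card ι : ℝ) / p) := ⟨_, rfl⟩
  rw [← hPd, ← hVd, ← hUd] at hvb
  rw [← hVd, ← hUd] at key
  simp only [Finset.univ_unique, Finset.sum_singleton, Nat.mod_one, if_true, mul_one,
    Nat.cast_one, div_one, Finset.card_singleton] at key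
  have hV0 : 0 < V := lt_of_lt_of_le (Real.rpow_pos_of_pos hxp _) hvb.1
  have hS : T.filter (fun N => Adm x a h W b N) =
      T.filter (fun N => N % W = b % W ∧ DP h P N = ∅) := by
    apply filter_congr
    intro N _
    rw [hPd]
    exact adm_iff x a h W b N hok.cop
  rw [hS, ← hPd, ← hVd]
  refine key.trans ?_
  have hM0 : 0 ≤ X / W * V := by positivity
  have hexp : Real.exp (-(1 / a)) ≤ e / 6 := (exp_small a ha).trans ha4
  have b1 : 3 * (Real.exp (-(1 / a)) * (X / W * V)) ≤ e * (X / W * V) := by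
    have h3 : Real.exp (-(1 / a)) * (X / W * V) ≤ e / 6 * (X / W * V) :=
      mul_le_mul_of_nonneg_right hexp hM0
    have h4 : 0 ≤ e * (X / W * V) := by positivity
    linarith
  have hU0 : 0 ≤ U := by
    rw [hUd]
    positivity
  have b2 : 3 * (x ^ (1 - c1) / W * U) ≤ x ^ (1 - c1 / 2) := by
    have h2 : x ^ (1 - c1) / W ≤ x ^ (1 - c1) := div_le_self (by positivity) hW1
    calc 3 * (x ^ (1 - c1) / W * U) ≤ x ^ (c1 / 4) * (x ^ (1 - c1) * x ^ (c1 / 4)) := by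
          apply mul_le_mul ev1 _ (by positivity) (by positivity)
          exact mul_le_mul h2 hvb.2 hU0 (by positivity)
      _ = x ^ (c1 / 4 + (1 - c1 + c1 / 4)) := by
          rw [Real.rpow_add hxp, Real.rpow_add hxp]
      _ = x ^ (1 - c1 / 2) := by
          congr 1
          ring
  have b3 : 3 * (x ^ (1 - c) * x ^ (c / 8)) ≤ x ^ (1 - c / 2) := by
    calc 3 * (x ^ (1 - c) * x ^ (c / 8)) ≤ x ^ (c / 8) * (x ^ (1 - c) * x ^ (c / 8)) := by
          apply mul_le_mul_of_nonneg_right ev2 (by positivity)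
      _ = x ^ (c / 8 + (1 - c + c / 8)) := by
          rw [Real.rpow_add hxp, Real.rpow_add hxp]
      _ ≤ x ^ (1 - c / 2) := Real.rpow_le_rpow_of_exponent_le hx1 (by linarith)
  linarith

end Pool.Agent.H67.SW
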