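import Pool.Agent.H67.SW.Def

/-!
# Module Ctz: counting in windows

PROOF. `ct_coprime`: by the Chinese remainder theorem (`Nat.chineseRemainder` twice, `q`, `m`, `m'` pairwise coprime and positive) the conditions are `n % (q m m') = c` for one `c`, and a window
of `N` consecutive integers has `N/(q m m') + θ`, `|θ| ≤ 1`, of them (`Nat.count_modEq_card`, `Int.Ioc_filter_modEq_card` or `Pool.Agent.H11.RG` counting lemmas).
`ct_zero`: a prime `p` dividing `m` and `m'` divides `n + i` and `n + j`, so `i - j`, but `p ≥ z > |i - j| > 0`.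
-/

set_option autoImplicit false

namespace Pool.Agent.H67.SW

open Finset

private theorem ct_card (A N M c : ℕ) (hM : 0 < M) :
    |((((Ioc A (A + N)).filter (fun n => n ≡ c [MOD M])).card : ℕ) : ℝ) - N / M| ≤ 1 := by
  have h1 := Nat.Ioc_filter_modEq_card A (A + N) hM c
  have hMq : (0 : ℚ) < M := by exact_mod_cast hM
  set x : ℚ := ((A : ℚ) - c) / M with hx
  have hy : (((A + N : ℕ) : ℚ) - c) / M = x + N / M := by
    rw [hx]
    push_cast
    ring
  rw [hy] at h1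
  have hN0 : (0 : ℚ) ≤ N / M := by positivity
  have h2 : ⌊x⌋ ≤ ⌊x + N / M⌋ := Int.floor_le_floor (by linarith)
  rw [max_eq_left (by omega)] at h1
  have h3 : ((((Ioc A (A + N)).filter (fun n => n ≡ c [MOD M])).card : ℕ) : ℚ) = ⌊x + N / M⌋ - ⌊x⌋ := by
    exact_mod_cast h1
  have h4 := Int.floor_le x
  have h5 := Int.lt_floor_add_one x
  have h6 := Int.floor_le (x + N / M)
  have h7 := Int.lt_floor_add_one (x + N / M)
  have h8 : |((((Ioc A (A + N)).filter (fun n => n ≡ c [MOD M])).card : ℕ) : ℚ) - N / M| ≤ 1 := by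
    rw [h3, abs_le]
    constructor <;> linarith
  have h9 : ((|((((Ioc A (A + N)).filter (fun n => n ≡ c [MOD M])).card : ℕ) : ℚ) - N / M| : ℚ) : ℝ) ≤ 1 := by
    exact_mod_cast h8
  push_cast at h9
  exact h9

private theorem ct_dvd (m i n : ℕ) (hm : 0 < m) : m ∣ n + i ↔ n ≡ i * (m - 1) [MOD m] := by
  have h1 : i * (m - 1) + i = m * i := by
    obtain ⟨m', rfl⟩ : ∃ m', m = m' + 1 := ⟨m - 1, by omega⟩
    rw [Nat.add_sub_cancel]
    ring
  constructor
  · intro h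
    apply Nat.ModEq.add_right_cancel' i
    rw [h1]
    exact ((Nat.modEq_zero_iff_dvd.2 h).trans (Nat.modEq_zero_iff_dvd.2 (Dvd.intro _ rfl)).symm)
  · intro h
    have h2 := h.add_right i
    rw [h1] at h2
    exact Nat.modEq_zero_iff_dvd.1 (h2.trans (Nat.modEq_zero_iff_dvd.2 (Dvd.intro _ rfl)))

theorem ct_coprime (A N q r m m' i j : ℕ) (hq : 0 < q) (hm : 0 < m) (hm' : 0 < m') (h1 : Nat.Coprime q m)
    (h2 : Nat.Coprime q m') (h3 : Nat.Coprime m m') :
    |((((Ioc A (A + N)).filter (fun n => n % q = r % q ∧ m ∣ n + i ∧ m' ∣ n + j)).card : ℕ) : ℝ) -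
      N / (q * m * m')| ≤ 1 := by
  obtain ⟨c1, hc1, hc1'⟩ := Nat.chineseRemainder h1 r (i * (m - 1))
  have h4 : Nat.Coprime (q * m) m' := Nat.Coprime.mul_left h2 h3
  obtain ⟨c, hc, hc'⟩ := Nat.chineseRemainder h4 c1 (j * (m' - 1))
  have hiff : ∀ n, (n % q = r % q ∧ m ∣ n + i ∧ m' ∣ n + j) ↔ n ≡ c [MOD q * m * m'] := by
    intro n
    rw [← Nat.modEq_and_modEq_iff_modEq_mul h4, ct_dvd m i n hm, ct_dvd m' j n hm']
    have h5 : n ≡ c [MOD q * m] ↔ n ≡ r [MOD q] ∧ n ≡ i * (m - 1) [MOD m] := by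
      constructor
      · intro h
        obtain ⟨h6, h7⟩ := (Nat.modEq_and_modEq_iff_modEq_mul h1).2 (h.trans hc)
        exact ⟨h6.trans hc1, h7.trans hc1'⟩
      · rintro ⟨h6, h7⟩
        exact ((Nat.modEq_and_modEq_iff_modEq_mul h1).1 ⟨h6.trans hc1.symm, h7.trans hc1'.symm⟩).trans hc.symm
    rw [h5, and_assoc]
    refine and_congr Iff.rfl (and_congr Iff.rfl ?_)
    exact ⟨fun h => h.trans hc'.symm, fun h => h.trans hc'⟩
  have h6 : (Ioc A (A + N)).filter (fun n => n % q = r % q ∧ m ∣ n + i ∧ m' ∣ n + j) =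
      (Ioc A (A + N)).filter (fun n => n ≡ c [MOD q * m * m']) :=
    Finset.filter_congr fun n _ => hiff n
  rw [h6]
  have h7 := ct_card A N (q * m * m') c (Nat.mul_pos (Nat.mul_pos hq hm) hm')
  push_cast at h7
  exact h7

theorem ct_zero (z : ℝ) (A N q r m m' i j : ℕ) (hij : i ≠ j) (hz : (((i : ℤ) - j).natAbs : ℝ) < z)
    (hm : rg z m) (h3 : ¬ Nat.Coprime m m') :
    (Ioc A (A + N)).filter (fun n => n % q = r % q ∧ m ∣ n + i ∧ m' ∣ n + j) = ∅ := by
  rw [Finset.filter_eq_empty_iff]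
  rintro n - ⟨-, h1, h2⟩
  obtain ⟨p, hp, hpm, hpm'⟩ := Nat.Prime.not_coprime_iff_dvd.1 h3
  have hz1 := hm p hp hpm
  have h4 : (p : ℤ) ∣ (n + i : ℕ) := by exact_mod_cast hpm.trans h1
  have h5 : (p : ℤ) ∣ (n + j : ℕ) := by exact_mod_cast hpm'.trans h2
  have h6 : (p : ℤ) ∣ (i : ℤ) - j := by
    have h7 := dvd_sub h4 h5
    have h8 : ((n + i : ℕ) : ℤ) - ((n + j : ℕ) : ℤ) = (i : ℤ) - j := by
      push_cast
      ring
    rwa [h8] at h7
  have h7 : p ∣ ((i : ℤ) - j).natAbs := Int.natCast_dvd.1 h6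
  have h8 : 0 < ((i : ℤ) - j).natAbs := by
    rw [Int.natAbs_pos]
    intro h
    apply hij
    omega
  have h9 : (p : ℝ) ≤ (((i : ℤ) - j).natAbs : ℝ) := by exact_mod_cast Nat.le_of_dvd h8 h7
  linarith

end Pool.Agent.H67.SW
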