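import Pool.Agent.H67.SW.Qz
import Pool.Agent.H67.SW.Ctz

/-!
# Module D1: distribution of the weight and of its square

PROOF. Expand the square (fourth power): `nz z R m = ∑_{d1, d2 ≤ R} lz d1 lz d2 1_{lcm d1 d2 ∣ m}`. Exchange the sums; a term with `lz d1 lz d2 ≠ 0` has `lcm` rough (`lz_rg`), so coprime to `q` (whose
prime factors are `< z`), and `ct_coprime` with `m' = 1` (and `m = lcm`) gives `N/(q lcm) + θ`, `|θ| ≤ 1`; `|lz| ≤ 1`; `quadz` (definition of `E4` for the fourth power).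
-/

set_option autoImplicit false

namespace Pool.Agent.H67.SW

open Finset Pool.Agent.H11.RG

private theorem rg_lcm {z : ℝ} {a b : ℕ} (ha : rg z a) (hb : rg z b) : rg z (a.lcm b) := by
  intro p hp h
  rcases (hp.dvd_mul).1 (h.trans (Nat.lcm_dvd_mul a b)) with h1 | h1
  · exact ha p hp h1
  · exact hb p hp h1

private theorem sq_exp {ι : Type} (S : Finset ι) (w : ι → ℝ) (L : ι → ℕ) (n : ℕ) :
    (∑ s ∈ S, if L s ∣ n then w s else 0) ^ 2 =
      ∑ p ∈ S ×ˢ S, if (L p.1).lcm (L p.2) ∣ n then w p.1 * w p.2 else 0 := by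
  rw [sq, Finset.sum_mul_sum, Finset.sum_product]
  refine Finset.sum_congr rfl fun a _ => Finset.sum_congr rfl fun b _ => ?_
  by_cases h1 : L a ∣ n
  · by_cases h2 : L b ∣ n
    · rw [if_pos h1, if_pos h2, if_pos (Nat.lcm_dvd h1 h2)]
    · rw [if_neg h2, mul_zero, if_neg fun h => h2 ((Nat.dvd_lcm_right _ _).trans h)]
  · rw [if_neg h1, zero_mul, if_neg fun h => h1 ((Nat.dvd_lcm_left _ _).trans h)]

private theorem nz_exp (z : ℝ) (R n : ℕ) :
    nz z R n = ∑ p ∈ Icc 1 R ×ˢ Icc 1 R, if (p.1).lcm (p.2) ∣ n then lz z R p.1 * lz z R p.2 else 0 := by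
  unfold nz
  rw [Finset.sum_filter]
  exact sq_exp (Icc 1 R) (fun d => lz z R d) (fun d => d) n

private theorem dist_gen {ι : Type} (S : Finset ι) (w : ι → ℝ) (L : ι → ℕ) (z Q : ℝ) (A N i : ℕ)
    (hw : ∀ s ∈ S, |w s| ≤ 1) (hL : ∀ s ∈ S, 0 < L s) (hr : ∀ s ∈ S, w s ≠ 0 → rg z (L s)) :
    Dist (Ioc A (A + N)) (fun n => ∑ s ∈ S, if L s ∣ n + i then w s else 0)
      (N * ∑ s ∈ S, w s / L s) Q z 0 S.card := by
  intro q r hq hqQ hqz
  rw [Finset.sum_comm]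
  have h1 : ∀ s ∈ S, ∑ n ∈ (Ioc A (A + N)).filter (fun n => n % q = r % q),
      (if L s ∣ n + i then w s else 0) = w s * ((((Ioc A (A + N)).filter
        (fun n => n % q = r % q ∧ L s ∣ n + i ∧ 1 ∣ n + 0)).card : ℕ) : ℝ) := by
    intro s hs
    rw [← Finset.sum_filter, Finset.sum_const, nsmul_eq_mul, mul_comm, Finset.filter_filter]
    have h2 : (Ioc A (A + N)).filter (fun n => n % q = r % q ∧ L s ∣ n + i) =
        (Ioc A (A + N)).filter (fun n => n % q = r % q ∧ L s ∣ n + i ∧ 1 ∣ n + 0) := by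
      ext n
      simp
    rw [h2]
  have h3 : (N * ∑ s ∈ S, w s / L s) / q =
      ∑ s ∈ S, w s * ((N : ℝ) / ((q : ℝ) * (L s : ℝ) * ((1 : ℕ) : ℝ))) := by
    rw [Finset.mul_sum, Finset.sum_div]
    refine Finset.sum_congr rfl fun s hs => ?_
    have h4 : (0 : ℝ) < L s := by exact_mod_cast hL s hs
    have h5 : (0 : ℝ) < q := by exact_mod_cast hq
    rw [Nat.cast_one]
    field_simp
  rw [Finset.sum_congr rfl h1, h3, ← Finset.sum_sub_distrib, zero_div, zero_add]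
  refine (Finset.abs_sum_le_sum_abs _ _).trans ?_
  have h6 : ∀ s ∈ S, |w s * ((((Ioc A (A + N)).filter
        (fun n => n % q = r % q ∧ L s ∣ n + i ∧ 1 ∣ n + 0)).card : ℕ) : ℝ) -
      w s * ((N : ℝ) / ((q : ℝ) * (L s : ℝ) * ((1 : ℕ) : ℝ)))| ≤ 1 := by
    intro s hs
    rw [← mul_sub, abs_mul]
    by_cases h0 : w s = 0
    · rw [h0, abs_zero, zero_mul]
      exact zero_le_one
    · have h7 : Nat.Coprime q (L s) := by
        refine Nat.coprime_of_dvd fun p hp h8 h9 => ?_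
        have h10 := hqz p hp h8
        have h11 := hr s hs h0 p hp h9
        linarith
      have h12 := ct_coprime A N q r (L s) 1 i 0 hq (hL s hs) one_pos h7 (Nat.coprime_one_right q)
        (Nat.coprime_one_right _)
      calc _ ≤ 1 * 1 := mul_le_mul (hw s hs) h12 (abs_nonneg _) zero_le_one
        _ = 1 := one_mul 1
  refine (Finset.sum_le_card_nsmul _ _ _ h6).trans ?_
  rw [nsmul_eq_mul, mul_one]

private theorem lz2_abs (z : ℝ) (R a b : ℕ) (hR : 1 ≤ R) : |lz z R a * lz z R b| ≤ 1 := by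
  rw [abs_mul]
  calc _ ≤ 1 * 1 := mul_le_mul (lz_abs z R a hR) (lz_abs z R b hR) (abs_nonneg _) zero_le_one
    _ = 1 := one_mul 1

private theorem lz2_rg (z : ℝ) (R a b : ℕ) (h : lz z R a * lz z R b ≠ 0) : rg z (a.lcm b) :=
  rg_lcm (lz_rg z R a (left_ne_zero_of_mul h)).2.1 (lz_rg z R b (right_ne_zero_of_mul h)).2.1

theorem dist_one (z Q : ℝ) (R A N i : ℕ) (hR : 1 ≤ R) :
    Dist (Ioc A (A + N)) (fun n => nz z R (n + i)) (N * (1 / Sz z R)) Q z 0 ((R : ℝ) ^ 2) := by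
  have h1 := dist_gen (Icc 1 R ×ˢ Icc 1 R) (fun p => lz z R p.1 * lz z R p.2)
    (fun p => (p.1).lcm (p.2)) z Q A N i (fun p _ => lz2_abs z R _ _ hR)
    (fun p hp => Nat.lcm_pos (Finset.mem_Icc.1 (Finset.mem_product.1 hp).1).1
      (Finset.mem_Icc.1 (Finset.mem_product.1 hp).2).1) (fun p _ h => lz2_rg z R _ _ h)
  have h2 : ∑ p ∈ Icc 1 R ×ˢ Icc 1 R, lz z R p.1 * lz z R p.2 / ((p.1).lcm (p.2) : ℝ) =
      1 / Sz z R := by
    rw [← quadz z R hR, Finset.sum_product]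
  have h3 : (((Icc 1 R ×ˢ Icc 1 R).card : ℕ) : ℝ) = (R : ℝ) ^ 2 := by
    rw [Finset.card_product, Nat.card_Icc]
    push_cast
    ring
  rw [h2, h3] at h1
  have h4 : (fun n => nz z R (n + i)) = fun n => ∑ p ∈ Icc 1 R ×ˢ Icc 1 R,
      if (p.1).lcm (p.2) ∣ n + i then lz z R p.1 * lz z R p.2 else 0 :=
    funext fun n => nz_exp z R (n + i)
  rw [h4]
  exact h1

theorem dist_four (z Q : ℝ) (R A N i : ℕ) (hR : 1 ≤ R) :
    Dist (Ioc A (A + N)) (fun n => (nz z R (n + i)) ^ 2) (N * E4 z R) Q z 0 ((R : ℝ) ^ 4) := by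
  have h1 := dist_gen ((Icc 1 R ×ˢ Icc 1 R) ×ˢ (Icc 1 R ×ˢ Icc 1 R))
    (fun p => (lz z R p.1.1 * lz z R p.1.2) * (lz z R p.2.1 * lz z R p.2.2))
    (fun p => ((p.1.1).lcm (p.1.2)).lcm ((p.2.1).lcm (p.2.2))) z Q A N i
    (fun p _ => by
      rw [abs_mul]
      calc _ ≤ 1 * 1 := mul_le_mul (lz2_abs z R _ _ hR) (lz2_abs z R _ _ hR) (abs_nonneg _)
            zero_le_one
        _ = 1 := one_mul 1)
    (fun p hp => by
      rw [Finset.mem_product, Finset.mem_product, Finset.mem_product] at hp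
      exact Nat.lcm_pos (Nat.lcm_pos (Finset.mem_Icc.1 hp.1.1).1 (Finset.mem_Icc.1 hp.1.2).1)
        (Nat.lcm_pos (Finset.mem_Icc.1 hp.2.1).1 (Finset.mem_Icc.1 hp.2.2).1))
    (fun p _ h => rg_lcm (lz2_rg z R _ _ (left_ne_zero_of_mul h))
      (lz2_rg z R _ _ (right_ne_zero_of_mul h)))
  have h2 : ∑ p ∈ (Icc 1 R ×ˢ Icc 1 R) ×ˢ (Icc 1 R ×ˢ Icc 1 R),
      (lz z R p.1.1 * lz z R p.1.2) * (lz z R p.2.1 * lz z R p.2.2) /
        ((((p.1.1).lcm (p.1.2)).lcm ((p.2.1).lcm (p.2.2)) : ℕ) : ℝ) = E4 z R := by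
    unfold E4
    rw [Finset.sum_product, Finset.sum_product]
    refine Finset.sum_congr rfl fun a _ => Finset.sum_congr rfl fun b _ => ?_
    rw [Finset.sum_product]
  have h3 : ((((Icc 1 R ×ˢ Icc 1 R) ×ˢ (Icc 1 R ×ˢ Icc 1 R)).card : ℕ) : ℝ) = (R : ℝ) ^ 4 := by
    rw [Finset.card_product, Finset.card_product, Nat.card_Icc]
    push_cast
    ring
  rw [h2, h3] at h1
  have h4 : (fun n => (nz z R (n + i)) ^ 2) = fun n =>
      ∑ p ∈ (Icc 1 R ×ˢ Icc 1 R) ×ˢ (Icc 1 R ×ˢ Icc 1 R),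
        if ((p.1.1).lcm (p.1.2)).lcm ((p.2.1).lcm (p.2.2)) ∣ n + i then
          (lz z R p.1.1 * lz z R p.1.2) * (lz z R p.2.1 * lz z R p.2.2) else 0 :=
    funext fun n => by
      rw [nz_exp]
      exact sq_exp (Icc 1 R ×ˢ Icc 1 R) (fun p => lz z R p.1 * lz z R p.2)
        (fun p => (p.1).lcm (p.2)) (n + i)
  rw [h4]
  exact h1

end Pool.Agent.H67.SW
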