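import Pool.Agent.H67.SW.Qz
import Pool.Agent.H67.SW.Ctz

/-!
# Module D2: distribution of the product of two shifted weights

PROOF. `nz (n+i) nz (n+j) = ∑_{d1,d2,d3,d4 ≤ R} lz d1 lz d2 lz d3 lz d4 1_{m ∣ n+i} 1_{m' ∣ n+j}`, `m = lcm d1 d2`, `m' = lcm d3 d4`. Nonzero terms have `m`, `m'` rough, so coprime to `q`. If `m`, `m'` are
coprime: `ct_coprime`: `N/(q m m') + θ`, `|θ| ≤ 1`. Otherwise the count is `0` (`ct_zero`). So the sum is `N/q (1/Sz)² + θ' R⁴ + (N/q) θ'' ∑_{not coprime} |lz d1 lz d2 lz d3 lz d4|/(m m')`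
(`quadz` squared: `∑_{d1..d4} lz.../(m m') = (1/Sz)²`).
The last sum (`noncop`): if `m`, `m'` are not coprime there is a prime `p ≥ z`, `p ≤ R`, dividing both. For a prime `p`: `∑_{d1, d2 ≤ R squarefree, p ∣ lcm d1 d2} 1/lcm d1 d2 ≤ (3/p) (1 + log R)³`: with
`g = gcd`, `d1 = g u`, `d2 = g v`, `lcm = g u v`, `(d1,d2) ↦ (g,u,v)` injective, `p` divides `g`, `u` or `v`, and `∑_{n ≤ R, p ∣ n} 1/n ≤ (1/p)(1 + log R)`, `∑_{n ≤ R} 1/n ≤ 1 + log R`.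
So the last sum is `≤ ∑_{p ≥ z} 9 (1 + log R)⁶/p² ≤ 9 (1 + log R)⁶ · 2/z · 2` (`∑_{n ≥ z} 1/n² ≤ 1/z² + 1/z ≤ 2/z` for `z ≥ 1`; the constant `40` is generous).
-/

set_option autoImplicit false

namespace Pool.Agent.H67.SW

open Finset Pool.Agent.H11.RG

private noncomputable def la (z : ℝ) (R : ℕ) (a : ℕ × ℕ) : ℝ := lz z R a.1 * lz z R a.2

private theorem nz_eq (z : ℝ) (R n : ℕ) : nz z R n =
    ∑ a ∈ Icc 1 R ×ˢ Icc 1 R, if a.1.lcm a.2 ∣ n then la z R a else 0 := by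
  unfold nz
  rw [sq, Finset.sum_filter, Finset.sum_mul_sum, ← Finset.sum_product']
  refine Finset.sum_congr rfl fun a _ => ?_
  by_cases h1 : a.1 ∣ n <;> by_cases h2 : a.2 ∣ n <;> simp [Nat.lcm_dvd_iff, h1, h2, la]

private theorem sum_nz (z : ℝ) (R q r i j : ℕ) (T : Finset ℕ) :
    ∑ n ∈ T.filter (fun n => n % q = r % q), nz z R (n + i) * nz z R (n + j) =
      ∑ a ∈ Icc 1 R ×ˢ Icc 1 R, ∑ b ∈ Icc 1 R ×ˢ Icc 1 R, la z R a * la z R b *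
        (((T.filter (fun n => n % q = r % q ∧ a.1.lcm a.2 ∣ n + i ∧
          b.1.lcm b.2 ∣ n + j)).card : ℕ) : ℝ) := by
  simp_rw [nz_eq, Finset.sum_mul_sum]
  rw [Finset.sum_comm]
  refine Finset.sum_congr rfl fun a _ => ?_
  rw [Finset.sum_comm]
  refine Finset.sum_congr rfl fun b _ => ?_
  rw [Finset.card_eq_sum_ones, Nat.cast_sum, Finset.mul_sum, Finset.sum_filter, Finset.sum_filter]
  refine Finset.sum_congr rfl fun n _ => ?_
  by_cases h1 : n % q = r % q <;> by_cases h2 : a.1.lcm a.2 ∣ n + i <;>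
    by_cases h3 : b.1.lcm b.2 ∣ n + j <;> simp [h1, h2, h3]

private theorem harm (R : ℕ) : ∑ n ∈ Icc 1 R, 1 / (n : ℝ) ≤ 1 + Real.log R := by
  have h1 := harmonic_le_one_add_log R
  rw [harmonic_eq_sum_Icc] at h1
  push_cast at h1
  refine le_trans (le_of_eq ?_) h1
  exact Finset.sum_congr rfl fun n _ => one_div _

private theorem harm_p (R p : ℕ) (hp : 0 < p) :
    ∑ n ∈ Icc 1 R, (if p ∣ n then 1 / (n : ℝ) else 0) ≤ 1 / p * (1 + Real.log R) := by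
  have hp' : (0 : ℝ) < p := by exact_mod_cast hp
  refine le_trans ?_ (mul_le_mul_of_nonneg_left (harm R) (by positivity))
  rw [← Finset.sum_filter, Finset.mul_sum]
  have h1 : ∀ n ∈ (Icc 1 R).filter (fun n => p ∣ n), 1 / (n : ℝ) =
      (fun k : ℕ => 1 / (p : ℝ) * (1 / (k : ℝ))) (n / p) := by
    intro n hn
    obtain ⟨hn1, hn2⟩ := Finset.mem_filter.1 hn
    obtain ⟨k, hk⟩ := hn2
    have h2 : n / p = k := by
      rw [hk, Nat.mul_div_cancel_left _ hp]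
    show 1 / (n : ℝ) = 1 / (p : ℝ) * (1 / ((n / p : ℕ) : ℝ))
    rw [h2, hk]
    push_cast
    rw [one_div_mul_one_div]
  rw [Finset.sum_congr rfl h1, ← Finset.sum_image (f := fun k : ℕ => 1 / (p : ℝ) * (1 / (k : ℝ)))
    (g := fun n => n / p)]
  · refine Finset.sum_le_sum_of_subset_of_nonneg ?_ fun k _ _ => by positivity
    intro k hk
    obtain ⟨n, hn, hnk⟩ := Finset.mem_image.1 hk
    obtain ⟨hn1, hn2⟩ := Finset.mem_filter.1 hn
    have h2 := Finset.mem_Icc.1 hn1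
    have h3 : n / p = k := hnk
    rw [Finset.mem_Icc, ← h3]
    refine ⟨Nat.div_pos (Nat.le_of_dvd h2.1 hn2) hp, (Nat.div_le_self _ _).trans h2.2⟩
  · intro n hn n' hn' h
    have h2 := (Finset.mem_filter.1 (Finset.mem_coe.1 hn)).2
    have h3 := (Finset.mem_filter.1 (Finset.mem_coe.1 hn')).2
    have h4 : n / p = n' / p := h
    rw [← Nat.mul_div_cancel' h2, ← Nat.mul_div_cancel' h3, h4]

private theorem sum3 (S : Finset ℕ) (f g h : ℕ → ℝ) :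
    ∑ t ∈ S ×ˢ (S ×ˢ S), f t.1 * (g t.2.1 * h t.2.2) =
      (∑ n ∈ S, f n) * ((∑ n ∈ S, g n) * (∑ n ∈ S, h n)) := by
  rw [Finset.sum_product, Finset.sum_mul]
  refine Finset.sum_congr rfl fun a _ => ?_
  show ∑ b ∈ S ×ˢ S, f a * (g b.1 * h b.2) = _
  rw [← Finset.mul_sum, Finset.sum_mul_sum, Finset.sum_product]

private theorem sp_le (R p : ℕ) (hp : p.Prime) :
    ∑ a ∈ Icc 1 R ×ˢ Icc 1 R, (if p ∣ a.1.lcm a.2 then 1 / ((a.1.lcm a.2 : ℕ) : ℝ) else 0) ≤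
      3 / p * (1 + Real.log R) ^ 3 := by
  have hp0 : (0 : ℝ) < p := by exact_mod_cast hp.pos
  obtain ⟨H, hH⟩ : ∃ H : ℝ, H = ∑ n ∈ Icc 1 R, 1 / (n : ℝ) := ⟨_, rfl⟩
  obtain ⟨P, hP⟩ : ∃ P : ℝ, P = ∑ n ∈ Icc 1 R, (if p ∣ n then 1 / (n : ℝ) else 0) := ⟨_, rfl⟩
  obtain ⟨f, hf⟩ : ∃ f : ℕ × ℕ → ℕ × ℕ × ℕ, ∀ a, f a =
      (Nat.gcd a.1 a.2, a.1 / Nat.gcd a.1 a.2, a.2 / Nat.gcd a.1 a.2) := ⟨_, fun a => rfl⟩
  obtain ⟨F, hF⟩ : ∃ F : ℕ × ℕ × ℕ → ℝ, ∀ t, F t =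
      (if p ∣ t.1 then 1 / (t.1 : ℝ) else 0) * (1 / (t.2.1 : ℝ) * (1 / (t.2.2 : ℝ))) +
      ((1 / (t.1 : ℝ)) * ((if p ∣ t.2.1 then 1 / (t.2.1 : ℝ) else 0) * (1 / (t.2.2 : ℝ))) +
      (1 / (t.1 : ℝ)) * ((1 / (t.2.1 : ℝ)) * (if p ∣ t.2.2 then 1 / (t.2.2 : ℝ) else 0))) :=
    ⟨_, fun t => rfl⟩
  have hF0 : ∀ t, 0 ≤ F t := by
    intro t
    rw [hF]
    have h1 : ∀ n : ℕ, (0 : ℝ) ≤ if p ∣ n then 1 / (n : ℝ) else 0 := by
      intro n
      split_ifs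
      · positivity
      · exact le_rfl
    have h2 : ∀ n : ℕ, (0 : ℝ) ≤ 1 / (n : ℝ) := fun n => by positivity
    exact add_nonneg (mul_nonneg (h1 _) (mul_nonneg (h2 _) (h2 _)))
      (add_nonneg (mul_nonneg (h2 _) (mul_nonneg (h1 _) (h2 _)))
        (mul_nonneg (h2 _) (mul_nonneg (h2 _) (h1 _))))
  have hle : ∀ a ∈ Icc 1 R ×ˢ Icc 1 R,
      (if p ∣ a.1.lcm a.2 then 1 / ((a.1.lcm a.2 : ℕ) : ℝ) else 0) ≤ F (f a) := by
    intro a ha
    obtain ⟨ha1, ha2⟩ := Finset.mem_product.1 ha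
    have h1 := Finset.mem_Icc.1 ha1
    have h2 := Finset.mem_Icc.1 ha2
    split_ifs with h
    · obtain ⟨g, hg⟩ : ∃ g, g = Nat.gcd a.1 a.2 := ⟨_, rfl⟩
      have hg0 : 0 < g := by
        rw [hg]
        exact Nat.gcd_pos_of_pos_left _ h1.1
      obtain ⟨u, hu⟩ : g ∣ a.1 := by rw [hg]; exact Nat.gcd_dvd_left _ _
      obtain ⟨v, hv⟩ : g ∣ a.2 := by rw [hg]; exact Nat.gcd_dvd_right _ _
      have hl : a.1.lcm a.2 = g * (u * v) := by
        have h3 := Nat.gcd_mul_lcm a.1 a.2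
        rw [← hg] at h3
        apply Nat.eq_of_mul_eq_mul_left hg0
        rw [h3, hu, hv]
        ring
      have hfa : f a = (g, u, v) := by
        rw [hf, ← hg, hu, hv, Nat.mul_div_cancel_left _ hg0, Nat.mul_div_cancel_left _ hg0]
      rw [hfa, hF, hl]
      rw [hl] at h
      have h5 : 1 / ((g * (u * v) : ℕ) : ℝ) = 1 / (g : ℝ) * (1 / (u : ℝ) * (1 / (v : ℝ))) := by
        push_cast
        rw [one_div_mul_one_div, one_div_mul_one_div]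
      have h6 : ∀ n : ℕ, (0 : ℝ) ≤ if p ∣ n then 1 / (n : ℝ) else 0 := by
        intro n
        split_ifs
        · positivity
        · exact le_rfl
      have h7 : ∀ n : ℕ, (0 : ℝ) ≤ 1 / (n : ℝ) := fun n => by positivity
      rw [h5]
      have e1 := mul_nonneg (h6 g) (mul_nonneg (h7 u) (h7 v))
      have e2 := mul_nonneg (h7 g) (mul_nonneg (h6 u) (h7 v))
      have e3 := mul_nonneg (h7 g) (mul_nonneg (h7 u) (h6 v))
      rcases hp.dvd_mul.1 h with h8 | h8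
      · simp only [h8, if_true] at e1 ⊢
        linarith
      · rcases hp.dvd_mul.1 h8 with h9 | h9
        · simp only [h9, if_true] at e2 ⊢
          linarith
        · simp only [h9, if_true] at e3 ⊢
          linarith
    · exact hF0 _
  have hinj : Set.InjOn f (Icc 1 R ×ˢ Icc 1 R : Finset (ℕ × ℕ)) := by
    intro a ha b hb hab
    rw [hf, hf] at hab
    have h1 := congrArg Prod.fst hab
    have h2 := congrArg (fun t => t.2.1) hab
    have h3 := congrArg (fun t => t.2.2) hab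
    simp only at h1 h2 h3
    refine Prod.ext ?_ ?_
    · rw [← Nat.mul_div_cancel' (Nat.gcd_dvd_left a.1 a.2),
        ← Nat.mul_div_cancel' (Nat.gcd_dvd_left b.1 b.2), h2, h1]
    · rw [← Nat.mul_div_cancel' (Nat.gcd_dvd_right a.1 a.2),
        ← Nat.mul_div_cancel' (Nat.gcd_dvd_right b.1 b.2), h3, h1]
  have himg : (Icc 1 R ×ˢ Icc 1 R).image f ⊆ Icc 1 R ×ˢ (Icc 1 R ×ˢ Icc 1 R) := by
    intro t ht
    obtain ⟨a, ha, hat⟩ := Finset.mem_image.1 ht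
    obtain ⟨ha1, ha2⟩ := Finset.mem_product.1 ha
    have h1 := Finset.mem_Icc.1 ha1
    have h2 := Finset.mem_Icc.1 ha2
    have hg0 : 0 < Nat.gcd a.1 a.2 := Nat.gcd_pos_of_pos_left _ h1.1
    rw [← hat, hf]
    rw [Finset.mem_product, Finset.mem_product, Finset.mem_Icc, Finset.mem_Icc, Finset.mem_Icc]
    refine ⟨⟨hg0, ?_⟩, ⟨?_, ?_⟩, ?_, ?_⟩
    · exact (Nat.le_of_dvd h1.1 (Nat.gcd_dvd_left _ _)).trans h1.2
    · exact Nat.div_pos (Nat.le_of_dvd h1.1 (Nat.gcd_dvd_left _ _)) hg0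
    · exact (Nat.div_le_self _ _).trans h1.2
    · exact Nat.div_pos (Nat.le_of_dvd h2.1 (Nat.gcd_dvd_right _ _)) hg0
    · exact (Nat.div_le_self _ _).trans h2.2
  have hsum : ∑ t ∈ Icc 1 R ×ˢ (Icc 1 R ×ˢ Icc 1 R), F t = 3 * (P * (H * H)) := by
    simp only [hF]
    have e1 := sum3 (Icc 1 R) (fun n => if p ∣ n then 1 / (n : ℝ) else 0) (fun n => 1 / (n : ℝ))
      (fun n => 1 / (n : ℝ))
    have e2 := sum3 (Icc 1 R) (fun n => 1 / (n : ℝ)) (fun n => if p ∣ n then 1 / (n : ℝ) else 0)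
      (fun n => 1 / (n : ℝ))
    have e3 := sum3 (Icc 1 R) (fun n => 1 / (n : ℝ)) (fun n => 1 / (n : ℝ))
      (fun n => if p ∣ n then 1 / (n : ℝ) else 0)
    rw [Finset.sum_add_distrib, Finset.sum_add_distrib, e1, e2, e3, ← hH, ← hP]
    ring
  have hH1 : H ≤ 1 + Real.log R := hH ▸ harm R
  have hP1 : P ≤ 1 / p * (1 + Real.log R) := hP ▸ harm_p R p hp.pos
  have hH0 : 0 ≤ H := by
    rw [hH]
    exact Finset.sum_nonneg fun n _ => by positivity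
  calc _ ≤ ∑ a ∈ Icc 1 R ×ˢ Icc 1 R, F (f a) := Finset.sum_le_sum hle
    _ = ∑ t ∈ (Icc 1 R ×ˢ Icc 1 R).image f, F t := (Finset.sum_image hinj).symm
    _ ≤ ∑ t ∈ Icc 1 R ×ˢ (Icc 1 R ×ˢ Icc 1 R), F t :=
        Finset.sum_le_sum_of_subset_of_nonneg himg fun t _ _ => hF0 t
    _ = 3 * (P * (H * H)) := hsum
    _ ≤ 3 * (1 / p * (1 + Real.log R) * ((1 + Real.log R) * (1 + Real.log R))) := by
        have h1 : 0 ≤ 1 + Real.log R := hH0.trans hH1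
        gcongr
    _ = 3 / p * (1 + Real.log R) ^ 3 := by ring

private theorem la_rg {z : ℝ} {R : ℕ} {a : ℕ × ℕ} (h : la z R a ≠ 0) {p : ℕ} (hp : p.Prime)
    (ha : a ∈ Icc 1 R ×ˢ Icc 1 R) (hd : p ∣ a.1.lcm a.2) : z ≤ p ∧ p ≤ R := by
  obtain ⟨ha1, ha2⟩ := Finset.mem_product.1 ha
  have h1 := Finset.mem_Icc.1 ha1
  have h2 := Finset.mem_Icc.1 ha2
  have h3 : lz z R a.1 ≠ 0 := left_ne_zero_of_mul h
  have h4 : lz z R a.2 ≠ 0 := right_ne_zero_of_mul h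
  have h5 : p ∣ a.1 * a.2 := hd.trans (Nat.lcm_dvd_mul _ _)
  rcases hp.dvd_mul.1 h5 with h6 | h6
  · exact ⟨(lz_rg z R _ h3).2.1 p hp h6, (Nat.le_of_dvd h1.1 h6).trans h1.2⟩
  · exact ⟨(lz_rg z R _ h4).2.1 p hp h6, (Nat.le_of_dvd h2.1 h6).trans h2.2⟩

private theorem lcm_pos' {R : ℕ} {a : ℕ × ℕ} (ha : a ∈ Icc 1 R ×ˢ Icc 1 R) :
    0 < a.1.lcm a.2 := by
  obtain ⟨ha1, ha2⟩ := Finset.mem_product.1 ha
  exact Nat.lcm_pos (Finset.mem_Icc.1 ha1).1 (Finset.mem_Icc.1 ha2).1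

open Classical in
private noncomputable def ww (z : ℝ) (R : ℕ) (a b : ℕ × ℕ) : ℝ :=
  if ¬ Nat.Coprime (a.1.lcm a.2) (b.1.lcm b.2) ∧ la z R a ≠ 0 ∧ la z R b ≠ 0 then
    1 / (((a.1.lcm a.2 : ℕ) : ℝ) * ((b.1.lcm b.2 : ℕ) : ℝ)) else 0

private theorem ncop (z : ℝ) (R : ℕ) (hz1 : 1 ≤ z) (hR : 1 ≤ R) :
    ∑ a ∈ Icc 1 R ×ˢ Icc 1 R, ∑ b ∈ Icc 1 R ×ˢ Icc 1 R, ww z R a b ≤
      40 * (1 + Real.log R) ^ 6 / z := by
  classical
  have hlog : 0 ≤ Real.log R := Real.log_natCast_nonneg R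
  have hz0 : (0 : ℝ) < z := by linarith
  obtain ⟨X, hX⟩ : ∃ X : ℕ → ℕ × ℕ → ℝ, ∀ p a, X p a =
      if p ∣ a.1.lcm a.2 then 1 / ((a.1.lcm a.2 : ℕ) : ℝ) else 0 := ⟨_, fun _ _ => rfl⟩
  have hX0 : ∀ p a, 0 ≤ X p a := by
    intro p a
    rw [hX]
    split_ifs
    · positivity
    · exact le_rfl
  have h1 : ∀ a ∈ Icc 1 R ×ˢ Icc 1 R, ∀ b ∈ Icc 1 R ×ˢ Icc 1 R, ww z R a b ≤
      ∑ p ∈ (Icc ⌈z⌉₊ R).filter Nat.Prime, X p a * X p b := by
    intro a ha b hb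
    unfold ww
    split_ifs with h
    · obtain ⟨h2, h3, h4⟩ := h
      obtain ⟨p, hp, hpa, hpb⟩ := Nat.Prime.not_coprime_iff_dvd.1 h2
      have h5 := la_rg h3 hp ha hpa
      have h6 : p ∈ (Icc ⌈z⌉₊ R).filter Nat.Prime :=
        Finset.mem_filter.2 ⟨Finset.mem_Icc.2 ⟨Nat.ceil_le.2 h5.1, h5.2⟩, hp⟩
      refine le_trans (le_of_eq ?_) (Finset.single_le_sum (f := fun p => X p a * X p b)
        (fun p _ => mul_nonneg (hX0 p a) (hX0 p b)) h6)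
      show _ = X p a * X p b
      rw [hX, hX, if_pos hpa, if_pos hpb, one_div_mul_one_div]
    · exact Finset.sum_nonneg fun p _ => mul_nonneg (hX0 p a) (hX0 p b)
  have hn0 : 1 ≤ ⌈z⌉₊ := Nat.one_le_ceil_iff.2 hz0
  have h2 : ∑ p ∈ (Icc ⌈z⌉₊ R).filter Nat.Prime, ((p : ℝ) ^ 2)⁻¹ ≤ 2 / z := by
    have h3 := sum_Ioo_inv_sq_le (α := ℝ) (⌈z⌉₊ - 1) (R + 1)
    have h4 : ((⌈z⌉₊ - 1 : ℕ) : ℝ) + 1 = ⌈z⌉₊ := by
      rw [Nat.cast_sub hn0]
      push_cast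
      ring
    rw [h4] at h3
    refine le_trans (Finset.sum_le_sum_of_subset_of_nonneg ?_ fun p _ _ => by positivity)
      (h3.trans ?_)
    · intro p hp
      have h5 := Finset.mem_Icc.1 (Finset.mem_filter.1 hp).1
      rw [Finset.mem_Ioo]
      omega
    · have h5 : z ≤ (⌈z⌉₊ : ℝ) := Nat.le_ceil z
      gcongr
  calc ∑ a ∈ Icc 1 R ×ˢ Icc 1 R, ∑ b ∈ Icc 1 R ×ˢ Icc 1 R, ww z R a b
      ≤ ∑ a ∈ Icc 1 R ×ˢ Icc 1 R, ∑ b ∈ Icc 1 R ×ˢ Icc 1 R,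
        ∑ p ∈ (Icc ⌈z⌉₊ R).filter Nat.Prime, X p a * X p b :=
        Finset.sum_le_sum fun a ha => Finset.sum_le_sum fun b hb => h1 a ha b hb
    _ = ∑ p ∈ (Icc ⌈z⌉₊ R).filter Nat.Prime,
        (∑ a ∈ Icc 1 R ×ˢ Icc 1 R, X p a) * (∑ b ∈ Icc 1 R ×ˢ Icc 1 R, X p b) := by
        simp_rw [Finset.sum_mul_sum]
        rw [Finset.sum_congr rfl fun a _ => Finset.sum_comm]
        exact Finset.sum_comm
    _ ≤ ∑ p ∈ (Icc ⌈z⌉₊ R).filter Nat.Prime, (3 / p * (1 + Real.log R) ^ 3) *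
        (3 / p * (1 + Real.log R) ^ 3) := by
        refine Finset.sum_le_sum fun p hp => ?_
        have hp' := (Finset.mem_filter.1 hp).2
        have h3 : ∑ a ∈ Icc 1 R ×ˢ Icc 1 R, X p a ≤ 3 / p * (1 + Real.log R) ^ 3 := by
          simp only [hX]
          exact sp_le R p hp'
        exact mul_le_mul h3 h3 (Finset.sum_nonneg fun a _ => hX0 p a)
          ((Finset.sum_nonneg fun a _ => hX0 p a).trans h3)
    _ = 9 * (1 + Real.log R) ^ 6 * ∑ p ∈ (Icc ⌈z⌉₊ R).filter Nat.Prime, ((p : ℝ) ^ 2)⁻¹ := by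
        rw [Finset.mul_sum]
        refine Finset.sum_congr rfl fun p _ => ?_
        rw [div_eq_mul_inv, ← inv_pow]
        ring
    _ ≤ 9 * (1 + Real.log R) ^ 6 * (2 / z) := by
        refine mul_le_mul_of_nonneg_left h2 (by positivity)
    _ ≤ 40 * (1 + Real.log R) ^ 6 / z := by
        rw [← mul_div_assoc, div_le_div_iff_of_pos_right hz0]
        have : 0 ≤ (1 + Real.log (R : ℝ)) ^ 6 := by positivity
        linarith

theorem dist_two (z Q : ℝ) (R A N i j : ℕ) (hz1 : 1 ≤ z) (hR : 1 ≤ R) (hij : i ≠ j) (hz : (((i : ℤ) - j).natAbs : ℝ) < z) :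
    Dist (Ioc A (A + N)) (fun n => nz z R (n + i) * nz z R (n + j)) (N * (1 / Sz z R) ^ 2) Q z
      (N * (40 * (1 + Real.log R) ^ 6 / z)) ((R : ℝ) ^ 4) := by
  classical
  intro q r hq hqQ hqz
  have hq0 : (0 : ℝ) < q := by exact_mod_cast hq
  have hSz := Sz_pos z R hR
  have e1 := sum_nz z R q r i j (Ioc A (A + N))
  obtain ⟨K, hK⟩ : ∃ K : ℕ × ℕ → ℕ × ℕ → ℝ, ∀ a b, K a b =
      ((((Ioc A (A + N)).filter (fun n => n % q = r % q ∧ a.1.lcm a.2 ∣ n + i ∧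
          b.1.lcm b.2 ∣ n + j)).card : ℕ) : ℝ) := ⟨_, fun _ _ => rfl⟩
  have e2 : ∑ a ∈ Icc 1 R ×ˢ Icc 1 R, ∑ b ∈ Icc 1 R ×ˢ Icc 1 R, la z R a * la z R b *
      (N / (q * ((a.1.lcm a.2 : ℕ) : ℝ) * ((b.1.lcm b.2 : ℕ) : ℝ))) =
      N * (1 / Sz z R) ^ 2 / q := by
    have h1 := quadz z R hR
    rw [← Finset.sum_product' (f := fun a b => lz z R a * lz z R b / (a.lcm b : ℝ))] at h1
    rw [← h1, sq, Finset.sum_mul_sum, Finset.mul_sum, Finset.sum_div]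
    refine Finset.sum_congr rfl fun a ha => ?_
    rw [Finset.mul_sum, Finset.sum_div]
    refine Finset.sum_congr rfl fun b hb => ?_
    have ha0 : (0 : ℝ) < ((a.1.lcm a.2 : ℕ) : ℝ) := by exact_mod_cast lcm_pos' ha
    have hb0 : (0 : ℝ) < ((b.1.lcm b.2 : ℕ) : ℝ) := by exact_mod_cast lcm_pos' hb
    unfold la
    field_simp
  have hla : ∀ a, |la z R a| ≤ 1 := by
    intro a
    unfold la
    rw [abs_mul]
    exact mul_le_one₀ (lz_abs z R _ hR) (abs_nonneg _) (lz_abs z R _ hR)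
  have e3 : ∀ a ∈ Icc 1 R ×ˢ Icc 1 R, ∀ b ∈ Icc 1 R ×ˢ Icc 1 R,
      |la z R a * la z R b * K a b - la z R a * la z R b *
      (N / (q * ((a.1.lcm a.2 : ℕ) : ℝ) * ((b.1.lcm b.2 : ℕ) : ℝ)))| ≤ 1 + N / q * ww z R a b := by
    intro a ha b hb
    have hab : |la z R a * la z R b| ≤ 1 := by
      rw [abs_mul]
      exact mul_le_one₀ (hla a) (abs_nonneg _) (hla b)
    rw [← mul_sub, abs_mul]
    have hw0 : 0 ≤ ww z R a b := by
      unfold ww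
      split_ifs
      · positivity
      · exact le_rfl
    have hNq : (0 : ℝ) ≤ N / q := by positivity
    by_cases h0 : la z R a ≠ 0 ∧ la z R b ≠ 0
    · have hqa : Nat.Coprime q (a.1.lcm a.2) := by
        by_contra hc
        obtain ⟨p, hp, hpq, hpa⟩ := Nat.Prime.not_coprime_iff_dvd.1 hc
        have h1 := (la_rg h0.1 hp ha hpa).1
        have h2 := hqz p hp hpq
        linarith
      have hqb : Nat.Coprime q (b.1.lcm b.2) := by
        by_contra hc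
        obtain ⟨p, hp, hpq, hpb⟩ := Nat.Prime.not_coprime_iff_dvd.1 hc
        have h1 := (la_rg h0.2 hp hb hpb).1
        have h2 := hqz p hp hpq
        linarith
      by_cases hc : Nat.Coprime (a.1.lcm a.2) (b.1.lcm b.2)
      · have h1 := ct_coprime A N q r _ _ i j hq (lcm_pos' ha) (lcm_pos' hb) hqa hqb hc
        rw [← hK] at h1
        calc _ ≤ 1 * 1 := mul_le_mul hab h1 (abs_nonneg _) zero_le_one
          _ ≤ _ := by nlinarith [mul_nonneg hNq hw0]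
      · have h1 := ct_zero z A N q r (a.1.lcm a.2) (b.1.lcm b.2) i j hij hz
          (fun p hp hd => (la_rg h0.1 hp ha hd).1) hc
        have h2 : K a b = 0 := by
          rw [hK, h1, Finset.card_empty, Nat.cast_zero]
        have h3 : ww z R a b =
            1 / (((a.1.lcm a.2 : ℕ) : ℝ) * ((b.1.lcm b.2 : ℕ) : ℝ)) := by
          unfold ww
          rw [if_pos ⟨hc, h0⟩]
        rw [h2, zero_sub, abs_neg, h3]
        have h4 : |(N : ℝ) / (q * ((a.1.lcm a.2 : ℕ) : ℝ) * ((b.1.lcm b.2 : ℕ) : ℝ))| =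
            N / q * (1 / (((a.1.lcm a.2 : ℕ) : ℝ) * ((b.1.lcm b.2 : ℕ) : ℝ))) := by
          rw [abs_of_nonneg (by positivity), div_mul_div_comm, mul_one, mul_assoc]
        rw [h4]
        have h5 : (0 : ℝ) ≤ N / q * (1 / (((a.1.lcm a.2 : ℕ) : ℝ) * ((b.1.lcm b.2 : ℕ) : ℝ))) := by
          positivity
        nlinarith
    · have h1 : la z R a * la z R b = 0 := by
        by_contra h2
        exact h0 ⟨left_ne_zero_of_mul h2, right_ne_zero_of_mul h2⟩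
      rw [h1, abs_zero, zero_mul]
      nlinarith [mul_nonneg hNq hw0]
  have hcard : ((Icc 1 R ×ˢ Icc 1 R).card : ℝ) = (R : ℝ) ^ 2 := by
    rw [Finset.card_product, Nat.card_Icc]
    push_cast
    ring
  have e4 := ncop z R hz1 hR
  show |∑ n ∈ (Ioc A (A + N)).filter (fun n => n % q = r % q), nz z R (n + i) * nz z R (n + j) -
    N * (1 / Sz z R) ^ 2 / q| ≤ _
  rw [e1, ← e2, ← Finset.sum_sub_distrib]
  simp only [← Finset.sum_sub_distrib, ← hK]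
  calc _ ≤ ∑ a ∈ Icc 1 R ×ˢ Icc 1 R, ∑ b ∈ Icc 1 R ×ˢ Icc 1 R, (1 + N / q * ww z R a b) := by
        refine (Finset.abs_sum_le_sum_abs _ _).trans (Finset.sum_le_sum fun a ha => ?_)
        refine (Finset.abs_sum_le_sum_abs _ _).trans (Finset.sum_le_sum fun b hb => ?_)
        exact e3 a ha b hb
    _ = (R : ℝ) ^ 4 + N / q * ∑ a ∈ Icc 1 R ×ˢ Icc 1 R, ∑ b ∈ Icc 1 R ×ˢ Icc 1 R,
        ww z R a b := by
        simp only [Finset.sum_add_distrib, ← Finset.mul_sum, Finset.sum_const, nsmul_eq_mul]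
        rw [hcard]
        ring
    _ ≤ (R : ℝ) ^ 4 + N / q * (40 * (1 + Real.log R) ^ 6 / z) := by
        have : (0 : ℝ) ≤ N / q := by positivity
        have := mul_le_mul_of_nonneg_left e4 this
        linarith
    _ = _ := by ring

end Pool.Agent.H67.SW
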