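import Pool.Agent.H67.SW.Wz
import Pool.Agent.H75.AP.MertensB

/-!
# Module Fz: the fourth moment is bounded

PROOF. (a) `|lz| ≤ 1`, `lz d = 0` unless `d` is squarefree, rough, `≤ R`; such a `d` has at most `k = ⌊1/a⌋` prime factors (each `≥ x^a`, `d ≤ R ≤ x`). Group the quadruples by `m = lcm` (squarefree, rough, prime
factors `≤ R`, at most `4k` of them): at most `15^(4k)` quadruples of divisors (`16^ω(m)`) for each `m`. So `|E4| ≤ 16^(4k) ∑_m 1/m ≤ 16^(4k) ∑_{j ≤ 4k} (∑_{x^a ≤ p ≤ x} 1/p)^j`, and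
`∑_{x^a ≤ p ≤ x} 1/p ≤ C/a` (Chebyshev: `π(2y) - π(y) ≤ C y/log y`, at most `1 + log x/log 2` dyadic intervals, each `≤ C/log (x^a)`; or any Mertens theorem of the pool).
(b) `v1 (PR x a) · ∑_{n < x^a} 1/n ≤ 1` (Euler product, see `slog_euler` in H24/AB/SLog), `∑_{n < z} 1/n ≥ log z`.
-/

set_option autoImplicit false

namespace Pool.Agent.H67.SW

open Finset Filter Pool.Agent.H1.PS

private theorem fz_sum (a0 : ℝ) (ha0 : 0 < a0) :
    ∃ B : ℝ, ∀ᶠ x : ℝ in atTop,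
      ∑ p ∈ (range (⌊x⌋₊ + 1)).filter (fun p : ℕ => p.Prime ∧ x ^ a0 ≤ (p : ℝ)), (1 / (p : ℝ)) ≤ B := by
  have hR : 1 < 1 / a0 + 1 := by
    have : 0 < 1 / a0 := by positivity
    linarith
  obtain ⟨u0, hu0, h⟩ := Pool.Agent.H75.AP.mertens_ratio (1 / a0 + 1) 1 hR one_pos
  refine ⟨1 + (Real.log (1 / a0 + 1) + 1), ?_⟩
  have e1 : ∀ᶠ x : ℝ in atTop, u0 ≤ x ^ a0 := (tendsto_rpow_atTop ha0).eventually_ge_atTop _
  filter_upwards [e1, eventually_ge_atTop (1 : ℝ)] with x huu hx1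
  have hx0 : 0 < x := by linarith
  set u : ℝ := x ^ a0 with hu
  have hu1 : 1 < u := lt_of_lt_of_le hu0 huu
  have hv : x ≤ u ^ (1 / a0 + 1) := by
    rw [Real.rpow_add (by linarith), hu, ← Real.rpow_mul hx0.le, mul_one_div_cancel ha0.ne', Real.rpow_one,
      Real.rpow_one]
    nlinarith
  have h1 := h u x huu hv
  have hsub : (range (⌊x⌋₊ + 1)).filter (fun p : ℕ => p.Prime ∧ u ≤ (p : ℝ)) ⊆
      insert ⌊u⌋₊ (Pool.Agent.H75.AP.PI u x) := by
    intro p hp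
    rw [Finset.mem_filter, Finset.mem_range] at hp
    obtain ⟨hp1, hp2, hp3⟩ := hp
    rcases eq_or_lt_of_le hp3 with he | hl
    · refine Finset.mem_insert.2 (Or.inl ?_)
      rw [he, Nat.floor_natCast]
    · refine Finset.mem_insert.2 (Or.inr ?_)
      unfold Pool.Agent.H75.AP.PI
      rw [Finset.mem_filter, Finset.mem_range]
      exact ⟨hp1, hp2, hl⟩
  calc ∑ p ∈ (range (⌊x⌋₊ + 1)).filter (fun p : ℕ => p.Prime ∧ u ≤ (p : ℝ)), (1 / (p : ℝ))
      ≤ ∑ p ∈ insert ⌊u⌋₊ (Pool.Agent.H75.AP.PI u x), (1 / (p : ℝ)) :=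
        Finset.sum_le_sum_of_subset_of_nonneg hsub fun p _ _ => by positivity
    _ ≤ 1 / ((⌊u⌋₊ : ℕ) : ℝ) + ∑ p ∈ Pool.Agent.H75.AP.PI u x, (1 / (p : ℝ)) := by
        classical
        by_cases hmem : ⌊u⌋₊ ∈ Pool.Agent.H75.AP.PI u x
        · rw [Finset.insert_eq_of_mem hmem]
          have : (0 : ℝ) ≤ 1 / ((⌊u⌋₊ : ℕ) : ℝ) := by positivity
          linarith
        · rw [Finset.sum_insert hmem]
    _ ≤ 1 + (Real.log (1 / a0 + 1) + 1) := by
        have h2 : (1 : ℝ) ≤ ((⌊u⌋₊ : ℕ) : ℝ) := by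
          exact_mod_cast (Nat.one_le_floor_iff u).2 hu1.le
        have h3 : 1 / ((⌊u⌋₊ : ℕ) : ℝ) ≤ 1 := by
          rw [div_le_one (by linarith)]
          exact h2
        linarith

open Classical in
/-- indicator of the squarefree numbers with all prime factors in `s` -/
private noncomputable def ww (d : ℕ) (s : Finset ℕ) : ℝ := if Squarefree d ∧ d.primeFactors ⊆ s then 1 else 0

private theorem ww_nonneg (d : ℕ) (s : Finset ℕ) : 0 ≤ ww d s := by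
  unfold ww
  split_ifs <;> norm_num

private theorem ex_ww (I : Finset ℕ) (S : Finset (Finset ℕ)) (F : Finset ℕ → ℝ) :
    ∑ d ∈ I, ∑ s ∈ S, F s * ww d s = ∑ s ∈ S, F s * ∑ d ∈ I, ww d s := by
  rw [Finset.sum_comm]
  apply Finset.sum_congr rfl
  intro s _
  rw [Finset.mul_sum]

private theorem ww_sum (R : ℕ) (s : Finset ℕ) : ∑ d ∈ Icc 1 R, ww d s ≤ 2 ^ s.card := by
  classical
  unfold ww
  rw [Finset.sum_boole]
  have h : ((Icc 1 R).filter (fun d => Squarefree d ∧ d.primeFactors ⊆ s)).card ≤ s.powerset.card := by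
    apply Finset.card_le_card_of_injOn (fun d => d.primeFactors)
    · intro d hd
      rw [Finset.mem_coe, Finset.mem_filter] at hd
      rw [Finset.mem_coe, Finset.mem_powerset]
      exact hd.2.2
    · intro d hd e he hde
      rw [Finset.mem_coe, Finset.mem_filter] at hd he
      simp only at hde
      rw [← Nat.prod_primeFactors_of_squarefree hd.2.1, ← Nat.prod_primeFactors_of_squarefree he.2.1, hde]
  rw [Finset.card_powerset] at h
  exact_mod_cast h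

private theorem sqf_lcm (a b : ℕ) (ha : Squarefree a) (hb : Squarefree b) : Squarefree (a.lcm b) := by
  have ha0 := ha.ne_zero
  have hb0 := hb.ne_zero
  have h0 : a.lcm b ≠ 0 := Nat.lcm_ne_zero ha0 hb0
  rw [Nat.squarefree_iff_factorization_le_one h0]
  intro p
  rw [Nat.factorization_lcm ha0 hb0, Finsupp.sup_apply]
  exact sup_le ((Nat.squarefree_iff_factorization_le_one ha0).1 ha p)
    ((Nat.squarefree_iff_factorization_le_one hb0).1 hb p)

private theorem pf_lcm (a b : ℕ) (ha : a ≠ 0) (hb : b ≠ 0) :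
    (a.lcm b).primeFactors = a.primeFactors ∪ b.primeFactors := by
  ext p
  have h0 : a.lcm b ≠ 0 := Nat.lcm_ne_zero ha hb
  simp only [Finset.mem_union, Nat.mem_primeFactors, ne_eq, h0, ha, hb, not_false_eq_true, and_true]
  constructor
  · rintro ⟨hp, hd⟩
    rcases (Nat.Prime.dvd_mul hp).1 (hd.trans (Nat.lcm_dvd_mul a b)) with h | h
    · exact Or.inl ⟨hp, h⟩
    · exact Or.inr ⟨hp, h⟩
  · rintro (⟨hp, h⟩ | ⟨hp, h⟩)
    · exact ⟨hp, h.trans (Nat.dvd_lcm_left a b)⟩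
    · exact ⟨hp, h.trans (Nat.dvd_lcm_right a b)⟩

private theorem term_le (z : ℝ) (R : ℕ) (hR : 1 ≤ R) (P : Finset ℕ)
    (hP : ∀ p : ℕ, p.Prime → z ≤ (p : ℝ) → p ≤ R → p ∈ P) (d1 d2 d3 d4 : ℕ) :
    |lz z R d1 * lz z R d2 * (lz z R d3 * lz z R d4) / (((d1.lcm d2).lcm (d3.lcm d4) : ℕ) : ℝ)| ≤
      ∑ s ∈ P.powerset, (∏ p ∈ s, 1 / (p : ℝ)) * ww d1 s * ww d2 s * ww d3 s * ww d4 s := by
  classical
  have hpf : ∀ s ∈ P.powerset, 0 ≤ (∏ p ∈ s, 1 / (p : ℝ)) * ww d1 s * ww d2 s * ww d3 s * ww d4 s := by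
    intro s _
    have h0 : 0 ≤ ∏ p ∈ s, 1 / (p : ℝ) := Finset.prod_nonneg fun p _ => by positivity
    exact mul_nonneg (mul_nonneg (mul_nonneg (mul_nonneg h0 (ww_nonneg _ _)) (ww_nonneg _ _)) (ww_nonneg _ _))
      (ww_nonneg _ _)
  by_cases h0 : lz z R d1 = 0 ∨ lz z R d2 = 0 ∨ lz z R d3 = 0 ∨ lz z R d4 = 0
  · have : lz z R d1 * lz z R d2 * (lz z R d3 * lz z R d4) = 0 := by
      rcases h0 with h | h | h | h <;> simp [h]
    rw [this, zero_div, abs_zero]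
    exact Finset.sum_nonneg hpf
  · push Not at h0
    obtain ⟨n1, n2, n3, n4⟩ := h0
    obtain ⟨s1, r1, l1⟩ := lz_rg z R d1 n1
    obtain ⟨s2, r2, l2⟩ := lz_rg z R d2 n2
    obtain ⟨s3, r3, l3⟩ := lz_rg z R d3 n3
    obtain ⟨s4, r4, l4⟩ := lz_rg z R d4 n4
    have hsub : ∀ d : ℕ, Squarefree d → rg z d → d ≤ R → d.primeFactors ⊆ P := by
      intro d hs hr hl p hp
      have hpp := Nat.prime_of_mem_primeFactors hp
      have hpd := Nat.dvd_of_mem_primeFactors hp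
      exact hP p hpp (hr p hpp hpd) ((Nat.le_of_dvd (Nat.pos_of_ne_zero hs.ne_zero) hpd).trans hl)
    set m := (d1.lcm d2).lcm (d3.lcm d4) with hm
    have hms : Squarefree m := sqf_lcm _ _ (sqf_lcm _ _ s1 s2) (sqf_lcm _ _ s3 s4)
    have h12 : d1.lcm d2 ≠ 0 := Nat.lcm_ne_zero s1.ne_zero s2.ne_zero
    have h34 : d3.lcm d4 ≠ 0 := Nat.lcm_ne_zero s3.ne_zero s4.ne_zero
    have hmp : m.primeFactors = (d1.primeFactors ∪ d2.primeFactors) ∪ (d3.primeFactors ∪ d4.primeFactors) := by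
      rw [hm, pf_lcm _ _ h12 h34, pf_lcm _ _ s1.ne_zero s2.ne_zero, pf_lcm _ _ s3.ne_zero s4.ne_zero]
    have hmP : m.primeFactors ∈ P.powerset := by
      rw [Finset.mem_powerset, hmp]
      exact Finset.union_subset (Finset.union_subset (hsub _ s1 r1 l1) (hsub _ s2 r2 l2))
        (Finset.union_subset (hsub _ s3 r3 l3) (hsub _ s4 r4 l4))
    refine le_trans ?_ (Finset.single_le_sum hpf hmP)
    have w1 : ww d1 m.primeFactors = 1 := by
      unfold ww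
      rw [if_pos ⟨s1, by rw [hmp]; intro p hp; simp only [Finset.mem_union]; tauto⟩]
    have w2 : ww d2 m.primeFactors = 1 := by
      unfold ww
      rw [if_pos ⟨s2, by rw [hmp]; intro p hp; simp only [Finset.mem_union]; tauto⟩]
    have w3 : ww d3 m.primeFactors = 1 := by
      unfold ww
      rw [if_pos ⟨s3, by rw [hmp]; intro p hp; simp only [Finset.mem_union]; tauto⟩]
    have w4 : ww d4 m.primeFactors = 1 := by
      unfold ww
      rw [if_pos ⟨s4, by rw [hmp]; intro p hp; simp only [Finset.mem_union]; tauto⟩]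
    have hprod : (∏ p ∈ m.primeFactors, 1 / (p : ℝ)) = 1 / (m : ℝ) := by
      rw [Finset.prod_div_distrib, Finset.prod_const_one]
      rw [← Nat.cast_prod, Nat.prod_primeFactors_of_squarefree hms]
    rw [w1, w2, w3, w4, hprod]
    simp only [mul_one]
    rw [abs_div, abs_mul, abs_mul, abs_mul, Nat.abs_cast]
    apply div_le_div_of_nonneg_right _ (Nat.cast_nonneg m)
    have a1 := lz_abs z R d1 hR
    have a2 := lz_abs z R d2 hR
    have a3 := lz_abs z R d3 hR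
    have a4 := lz_abs z R d4 hR
    have b12 : |lz z R d1| * |lz z R d2| ≤ 1 := mul_le_one₀ a1 (abs_nonneg _) a2
    have b34 : |lz z R d3| * |lz z R d4| ≤ 1 := mul_le_one₀ a3 (abs_nonneg _) a4
    exact mul_le_one₀ b12 (mul_nonneg (abs_nonneg _) (abs_nonneg _)) b34

private theorem E4_le (z : ℝ) (R : ℕ) (hR : 1 ≤ R) (P : Finset ℕ)
    (hP : ∀ p : ℕ, p.Prime → z ≤ (p : ℝ) → p ≤ R → p ∈ P) :
    |E4 z R| ≤ ∏ p ∈ P, (1 + 16 / (p : ℝ)) := by
  classical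
  have h1 : |E4 z R| ≤ ∑ d1 ∈ Icc 1 R, ∑ d2 ∈ Icc 1 R, ∑ d3 ∈ Icc 1 R, ∑ d4 ∈ Icc 1 R,
      ∑ s ∈ P.powerset, (∏ p ∈ s, 1 / (p : ℝ)) * ww d1 s * ww d2 s * ww d3 s * ww d4 s := by
    unfold E4
    refine (Finset.abs_sum_le_sum_abs _ _).trans (Finset.sum_le_sum fun d1 _ => ?_)
    refine (Finset.abs_sum_le_sum_abs _ _).trans (Finset.sum_le_sum fun d2 _ => ?_)
    refine (Finset.abs_sum_le_sum_abs _ _).trans (Finset.sum_le_sum fun d3 _ => ?_)
    refine (Finset.abs_sum_le_sum_abs _ _).trans (Finset.sum_le_sum fun d4 _ => ?_)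
    exact term_le z R hR P hP d1 d2 d3 d4
  refine h1.trans ?_
  set W : Finset ℕ → ℝ := fun s => ∑ d ∈ Icc 1 R, ww d s with hW
  set c : Finset ℕ → ℝ := fun s => ∏ p ∈ s, 1 / (p : ℝ) with hc
  have e4 : ∀ d1 d2 d3 : ℕ, ∑ d4 ∈ Icc 1 R, ∑ s ∈ P.powerset, c s * ww d1 s * ww d2 s * ww d3 s * ww d4 s =
      ∑ s ∈ P.powerset, (c s * ww d1 s * ww d2 s * W s) * ww d3 s := by
    intro d1 d2 d3
    rw [ex_ww (Icc 1 R) P.powerset (fun s => c s * ww d1 s * ww d2 s * ww d3 s)]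
    exact Finset.sum_congr rfl fun s _ => by rw [hW]; ring
  have e3 : ∀ d1 d2 : ℕ, ∑ d3 ∈ Icc 1 R, ∑ s ∈ P.powerset, (c s * ww d1 s * ww d2 s * W s) * ww d3 s =
      ∑ s ∈ P.powerset, (c s * ww d1 s * W s * W s) * ww d2 s := by
    intro d1 d2
    rw [ex_ww (Icc 1 R) P.powerset (fun s => c s * ww d1 s * ww d2 s * W s)]
    exact Finset.sum_congr rfl fun s _ => by rw [hW]; ring
  have e2 : ∀ d1 : ℕ, ∑ d2 ∈ Icc 1 R, ∑ s ∈ P.powerset, (c s * ww d1 s * W s * W s) * ww d2 s =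
      ∑ s ∈ P.powerset, (c s * W s * W s * W s) * ww d1 s := by
    intro d1
    rw [ex_ww (Icc 1 R) P.powerset (fun s => c s * ww d1 s * W s * W s)]
    exact Finset.sum_congr rfl fun s _ => by rw [hW]; ring
  have e1 : ∑ d1 ∈ Icc 1 R, ∑ s ∈ P.powerset, (c s * W s * W s * W s) * ww d1 s =
      ∑ s ∈ P.powerset, (c s * W s * W s * W s) * W s :=
    ex_ww (Icc 1 R) P.powerset (fun s => c s * W s * W s * W s)
  have hall : ∑ d1 ∈ Icc 1 R, ∑ d2 ∈ Icc 1 R, ∑ d3 ∈ Icc 1 R, ∑ d4 ∈ Icc 1 R,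
      ∑ s ∈ P.powerset, c s * ww d1 s * ww d2 s * ww d3 s * ww d4 s =
      ∑ s ∈ P.powerset, (c s * W s * W s * W s) * W s := by
    rw [← e1]
    refine Finset.sum_congr rfl fun d1 _ => ?_
    rw [← e2]
    refine Finset.sum_congr rfl fun d2 _ => ?_
    rw [← e3]
    exact Finset.sum_congr rfl fun d3 _ => e4 d1 d2 d3
  rw [hall, Finset.prod_one_add]
  apply Finset.sum_le_sum
  intro s _
  have hc0 : 0 ≤ c s := Finset.prod_nonneg fun p _ => by positivity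
  have hW0 : 0 ≤ W s := Finset.sum_nonneg fun d _ => ww_nonneg d s
  have hW1 : W s ≤ 2 ^ s.card := ww_sum R s
  have hW4 : W s ^ 4 ≤ (2 ^ s.card) ^ 4 := pow_le_pow_left₀ hW0 hW1 4
  calc c s * W s * W s * W s * W s = c s * W s ^ 4 := by ring
    _ ≤ c s * (2 ^ s.card) ^ 4 := mul_le_mul_of_nonneg_left hW4 hc0
    _ = c s * 16 ^ s.card := by
        rw [← pow_mul, mul_comm s.card 4, pow_mul]
        norm_num
    _ = ∏ p ∈ s, 16 / (p : ℝ) := by
        rw [hc]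
        simp only
        rw [← Finset.prod_const, ← Finset.prod_mul_distrib]
        exact Finset.prod_congr rfl fun p _ => by ring

theorem four (a : ℝ) (ha : 0 < a) (ha1 : a ≤ 1) : ∃ C : ℝ, 0 < C ∧ ∀ᶠ x : ℝ in atTop,
    ∀ R : ℕ, 1 ≤ R → (R : ℝ) ≤ x → |E4 (x ^ a) R| ≤ C := by
  obtain ⟨B, hB⟩ := fz_sum a ha
  refine ⟨Real.exp (16 * B), Real.exp_pos _, ?_⟩
  filter_upwards [hB] with x hx R hR hRx
  have h1 := E4_le (x ^ a) R hR
    ((range (⌊x⌋₊ + 1)).filter (fun p : ℕ => p.Prime ∧ x ^ a ≤ (p : ℝ))) (by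
      intro p hp hz hpR
      rw [Finset.mem_filter, Finset.mem_range]
      refine ⟨?_, hp, hz⟩
      have : p ≤ ⌊x⌋₊ := Nat.le_floor ((by exact_mod_cast hpR : (p : ℝ) ≤ R).trans hRx)
      omega)
  refine h1.trans ?_
  calc ∏ p ∈ (range (⌊x⌋₊ + 1)).filter (fun p : ℕ => p.Prime ∧ x ^ a ≤ (p : ℝ)), (1 + 16 / (p : ℝ))
      ≤ ∏ p ∈ (range (⌊x⌋₊ + 1)).filter (fun p : ℕ => p.Prime ∧ x ^ a ≤ (p : ℝ)), Real.exp (16 / (p : ℝ)) := by
        apply Finset.prod_le_prod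
        · intro p _
          positivity
        · intro p _
          have := Real.add_one_le_exp (16 / (p : ℝ))
          linarith
    _ = Real.exp (∑ p ∈ (range (⌊x⌋₊ + 1)).filter (fun p : ℕ => p.Prime ∧ x ^ a ≤ (p : ℝ)), 16 / (p : ℝ)) := by
        rw [Real.exp_sum]
    _ ≤ Real.exp (16 * B) := by
        apply Real.exp_le_exp.2
        have : ∑ p ∈ (range (⌊x⌋₊ + 1)).filter (fun p : ℕ => p.Prime ∧ x ^ a ≤ (p : ℝ)), 16 / (p : ℝ) =
            16 * ∑ p ∈ (range (⌊x⌋₊ + 1)).filter (fun p : ℕ => p.Prime ∧ x ^ a ≤ (p : ℝ)), 1 / (p : ℝ) := by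
          rw [Finset.mul_sum]
          exact Finset.sum_congr rfl fun p _ => by ring
        rw [this]
        linarith

theorem v1_le (a : ℝ) (ha : 0 < a) (ha1 : a ≤ 1) : ∀ᶠ x : ℝ in atTop, v1 (PR x a) * Real.log x ≤ 1 / a := by
  filter_upwards [eventually_ge_atTop (1 : ℝ)] with x hx
  have hx0 : 0 < x := by linarith
  have hz1 : 1 ≤ x ^ a := Real.one_le_rpow hx ha.le
  have hN : 1 ≤ ⌈x ^ a⌉₊ := Nat.one_le_ceil_iff.2 (by linarith)
  have h1 := Pool.Agent.H1.log_le_prod ⌈x ^ a⌉₊ hN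
  have h2 : a * Real.log x ≤ Real.log (⌈x ^ a⌉₊ : ℝ) := by
    rw [← Real.log_rpow hx0]
    exact Real.log_le_log (by linarith) (Nat.le_ceil _)
  have h3 : (⌈x ^ a⌉₊).primesBelow = PR x a := by
    unfold Nat.primesBelow PR
    rfl
  rw [h3] at h1
  have hpos : 0 < v1 (PR x a) := by
    unfold v1
    apply Finset.prod_pos
    intro p hp
    unfold PR at hp
    have hp2 : (2 : ℝ) ≤ p := by exact_mod_cast (Finset.mem_filter.1 hp).2.two_le
    rw [sub_pos, div_lt_one (by linarith)]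
    linarith
  have h4 : ∏ p ∈ PR x a, (1 - (p : ℝ)⁻¹)⁻¹ = (v1 (PR x a))⁻¹ := by
    unfold v1
    rw [Finset.prod_inv_distrib]
    simp [one_div]
  rw [h4] at h1
  have h5 : a * Real.log x ≤ (v1 (PR x a))⁻¹ := h2.trans h1
  have h6 : v1 (PR x a) * (a * Real.log x) ≤ 1 := by
    calc v1 (PR x a) * (a * Real.log x) ≤ v1 (PR x a) * (v1 (PR x a))⁻¹ :=
          mul_le_mul_of_nonneg_left h5 hpos.le
      _ = 1 := mul_inv_cancel₀ hpos.ne'
  rw [le_div_iff₀ ha]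
  calc v1 (PR x a) * Real.log x * a = v1 (PR x a) * (a * Real.log x) := by ring
    _ ≤ 1 := h6

end Pool.Agent.H67.SW
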