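import Pool.Agent.H67.SW.Wz
import Pool.Agent.H24.AB.SLog

/-!
# Module Lz: lower bound of Selberg's sum

PROOF. `V = v1 (PR x a) = ∏_{p < z} (1 - 1/p)`, `z = x^a`. By `log_le_Ss` (H24/AB/SLog) it is enough that `V · Ss R ≤ Sz z R`, `Ss R = ∑_{m ≤ R} gs m`. Write a squarefree `m ≤ R` as `m = u v`,
`u` = product of the prime factors `< z`, `v` = product of the others (`rg z v`, `v ≤ R`), `gs m = gs u · gz z v`, and `m ↦ (u, v)` is injective; `u` divides `P = ∏_{p ∈ PR x a} p`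
(squarefree). So `Ss R ≤ (∑_{u ∣ P} 1/φ(u)) Sz z R = ∏_{p ∈ PR x a} (1 + 1/(p-1)) Sz z R = V⁻¹ Sz z R` (`1 + 1/(p-1) = (1 - 1/p)⁻¹`; or induction on the set of primes).
-/

set_option autoImplicit false

namespace Pool.Agent.H67.SW

open Finset Pool.Agent.H1.PS

/-- the part of Selberg's sum without prime factor in `S` -/
private def GS (S : Finset ℕ) (R : ℕ) : Finset ℕ :=
  (Icc 1 R).filter (fun m => Squarefree m ∧ ∀ p ∈ S, ¬ p ∣ m)

private theorem GS_step (S : Finset ℕ) (R p : ℕ) (hp : p.Prime) :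
    ∑ m ∈ GS S R, 1 / (Nat.totient m : ℝ) ≤
      (1 + 1 / ((p : ℝ) - 1)) * ∑ m ∈ GS (insert p S) R, 1 / (Nat.totient m : ℝ) := by
  classical
  have hp2 : (2 : ℝ) ≤ p := by exact_mod_cast hp.two_le
  have hp1 : (0 : ℝ) < (p : ℝ) - 1 := by linarith
  rw [← Finset.sum_filter_add_sum_filter_not (GS S R) (fun m => p ∣ m)]
  have h1 : (GS S R).filter (fun m => ¬ p ∣ m) = GS (insert p S) R := by
    ext m
    unfold GS
    simp only [Finset.mem_filter, Finset.mem_insert, forall_eq_or_imp]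
    tauto
  rw [h1]
  have h2 : ∑ m ∈ (GS S R).filter (fun m => p ∣ m), 1 / (Nat.totient m : ℝ) =
      1 / ((p : ℝ) - 1) * ∑ m ∈ ((GS S R).filter (fun m => p ∣ m)).image (fun m => m / p),
        1 / (Nat.totient m : ℝ) := by
    have hinj : Set.InjOn (fun m : ℕ => m / p) (((GS S R).filter (fun m => p ∣ m) : Finset ℕ) : Set ℕ) := by
      intro a ha b hb hab
      rw [Finset.mem_coe, Finset.mem_filter] at ha hb
      obtain ⟨c, rfl⟩ := ha.2
      obtain ⟨d, rfl⟩ := hb.2
      simp only [Nat.mul_div_cancel_left _ hp.pos] at hab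
      rw [hab]
    rw [Finset.sum_image hinj, Finset.mul_sum]
    apply Finset.sum_congr rfl
    intro m hm
    unfold GS at hm
    rw [Finset.mem_filter, Finset.mem_filter] at hm
    obtain ⟨⟨hm1, hm2, hm3⟩, k, rfl⟩ := hm
    rw [Nat.mul_div_cancel_left _ hp.pos]
    have hco : Nat.Coprime p k := by
      have := Nat.squarefree_mul_iff.1 hm2
      exact this.1
    rw [Nat.totient_mul hco, Nat.totient_prime hp]
    push_cast [Nat.cast_sub hp.one_lt.le]
    rw [one_div, one_div, one_div, mul_inv]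
  rw [h2, add_comm, add_mul, one_mul]
  apply add_le_add le_rfl
  apply mul_le_mul_of_nonneg_left _ (by positivity)
  apply Finset.sum_le_sum_of_subset_of_nonneg
  · intro k hk
    rw [Finset.mem_image] at hk
    obtain ⟨m, hm, rfl⟩ := hk
    unfold GS at hm ⊢
    rw [Finset.mem_filter, Finset.mem_filter] at hm
    obtain ⟨⟨hm1, hm2, hm3⟩, k, rfl⟩ := hm
    simp only [Nat.mul_div_cancel_left _ hp.pos]
    rw [Finset.mem_Icc] at hm1
    have hsq := Nat.squarefree_mul_iff.1 hm2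
    have hk0 : k ≠ 0 := by
      rintro rfl
      simp at hm1
    rw [Finset.mem_filter, Finset.mem_Icc]
    refine ⟨⟨Nat.pos_of_ne_zero hk0, ?_⟩, hsq.2.2, ?_⟩
    · exact (Nat.le_mul_of_pos_left k hp.pos).trans hm1.2
    · intro q hq hqk
      rcases Finset.mem_insert.1 hq with rfl | hq
      · exact (Nat.Prime.coprime_iff_not_dvd hp).1 hsq.1 hqk
      · exact hm3 q hq (hqk.mul_left p)
  · intro m _ _
    positivity

private theorem GS_all (R : ℕ) (S : Finset ℕ) (hS : ∀ p ∈ S, p.Prime) :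
    (∏ p ∈ S, (1 - 1 / (p : ℝ))) * ∑ m ∈ GS ∅ R, 1 / (Nat.totient m : ℝ) ≤
      ∑ m ∈ GS S R, 1 / (Nat.totient m : ℝ) := by
  classical
  induction S using Finset.induction_on with
  | empty => simp
  | insert p S hpS ih =>
    have hp : p.Prime := hS p (Finset.mem_insert_self p S)
    have hp2 : (2 : ℝ) ≤ p := by exact_mod_cast hp.two_le
    have hp1 : (0 : ℝ) < (p : ℝ) - 1 := by linarith
    have ih' := ih (fun q hq => hS q (Finset.mem_insert_of_mem hq))
    have hst := GS_step S R p hp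
    have hpos : (0 : ℝ) ≤ 1 - 1 / (p : ℝ) := by
      rw [sub_nonneg, div_le_one (by linarith)]
      linarith
    rw [Finset.prod_insert hpS, mul_assoc]
    calc (1 - 1 / (p : ℝ)) * ((∏ p ∈ S, (1 - 1 / (p : ℝ))) * ∑ m ∈ GS ∅ R, 1 / (Nat.totient m : ℝ))
        ≤ (1 - 1 / (p : ℝ)) * ∑ m ∈ GS S R, 1 / (Nat.totient m : ℝ) :=
          mul_le_mul_of_nonneg_left ih' hpos
      _ ≤ (1 - 1 / (p : ℝ)) * ((1 + 1 / ((p : ℝ) - 1)) *
            ∑ m ∈ GS (insert p S) R, 1 / (Nat.totient m : ℝ)) :=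
          mul_le_mul_of_nonneg_left hst hpos
      _ = ∑ m ∈ GS (insert p S) R, 1 / (Nat.totient m : ℝ) := by
          have : (1 - 1 / (p : ℝ)) * (1 + 1 / ((p : ℝ) - 1)) = 1 := by
            field_simp
            ring
          rw [← mul_assoc, this, one_mul]

theorem logz (x a : ℝ) (R : ℕ) (hR : 1 ≤ R) : v1 (PR x a) * Real.log R ≤ Sz (x ^ a) R := by
  classical
  have hP : ∀ p ∈ PR x a, p.Prime := by
    intro p hp
    unfold PR at hp
    exact (Finset.mem_filter.1 hp).2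
  have h1 := Pool.Agent.H24.AB.log_le_Ss R hR
  have h2 : Pool.Agent.H24.AB.Ss R = ∑ m ∈ GS ∅ R, 1 / (Nat.totient m : ℝ) := by
    unfold Pool.Agent.H24.AB.Ss Pool.Agent.H24.AB.gs GS
    rw [Finset.sum_filter]
    apply Finset.sum_congr rfl
    intro m _
    by_cases h : Squarefree m
    · simp [h]
    · simp [h]
  have h3 : Sz (x ^ a) R = ∑ m ∈ GS (PR x a) R, 1 / (Nat.totient m : ℝ) := by
    unfold Sz gz GS
    rw [Finset.sum_filter]
    apply Finset.sum_congr rfl
    intro m _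
    have hiff : (Squarefree m ∧ rg (x ^ a) m) ↔ (Squarefree m ∧ ∀ p ∈ PR x a, ¬ p ∣ m) := by
      unfold rg PR
      constructor
      · rintro ⟨hs, hr⟩
        refine ⟨hs, fun p hp hpm => ?_⟩
        rw [Finset.mem_filter, Finset.mem_range] at hp
        have h5 := hr p hp.2 hpm
        exact absurd (Nat.lt_ceil.1 hp.1) (not_lt.2 h5)
      · rintro ⟨hs, hr⟩
        refine ⟨hs, fun p hp hpm => ?_⟩
        by_contra hlt
        rw [not_le] at hlt
        exact hr p (by rw [Finset.mem_filter, Finset.mem_range]; exact ⟨Nat.lt_ceil.2 hlt, hp⟩) hpm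
    by_cases h : Squarefree m ∧ ∀ p ∈ PR x a, ¬ p ∣ m
    · rw [if_pos (hiff.2 h), if_pos h]
    · rw [if_neg (fun h' => h (hiff.1 h')), if_neg h]
  have h4 := GS_all R (PR x a) hP
  rw [h3]
  refine le_trans ?_ h4
  rw [← h2]
  unfold v1
  apply mul_le_mul_of_nonneg_left h1
  apply Finset.prod_nonneg
  intro p hp
  have hp2 : (2 : ℝ) ≤ p := by exact_mod_cast (hP p hp).two_le
  rw [sub_nonneg, div_le_one (by linarith)]
  linarith

end Pool.Agent.H67.SW
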