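import Pool.Agent.H67.SW.Cls

/-!
# Module Two: sum over the residue classes (general set)

PROOF: `H1/PS/Two.lean` with a general set `T` and power saving errors.
-/

set_option autoImplicit false

namespace Pool.Agent.H67.SW

open Finset Filter Topology Pool.Agent.H92.MM Pool.Agent.H95.FL Pool.Agent.H11.RG Pool.Agent.H96.UL Pool.Agent.H1.PS

private theorem all_cls {ι : Type} [Fintype ι] (x a : ℝ) (h : ι → ℕ) (W : ℕ) (hW : 0 < W)
    (hWp : ∀ p : ℕ, p.Prime → p ∣ W → (p : ℝ) < x ^ a) (T : Finset ℕ) (f : ℕ → ℝ)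
    [DecidablePred fun N => ∀ j, Ro x a (N + h j)]
    [DecidablePred fun b => ∀ j, Nat.Coprime (b + h j) W]
    [∀ b, DecidablePred fun N => Adm x a h W b N] :
    ∑ N ∈ T.filter (fun N => ∀ j, Ro x a (N + h j)), f N =
      ∑ b ∈ (range W).filter (fun b => ∀ j, Nat.Coprime (b + h j) W),
        ∑ N ∈ T.filter (fun N => Adm x a h W b N), f N := by
  have hmap : ∀ N ∈ T.filter (fun N => ∀ j, Ro x a (N + h j)),
      N % W ∈ (range W).filter (fun b => ∀ j, Nat.Coprime (b + h j) W) := by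
    intro N hN
    rw [mem_filter] at hN
    rw [mem_filter, mem_range]
    refine ⟨Nat.mod_lt _ hW, fun j => ?_⟩
    by_contra hc
    obtain ⟨p, hp, h1, h2⟩ := Nat.Prime.not_coprime_iff_dvd.1 hc
    have h3 : N % W + h j ≡ N + h j [MOD p] :=
      ((Nat.mod_modEq N W).of_dvd h2).add_right _
    have h4 : p ∣ N + h j := (Nat.ModEq.dvd_iff h3 dvd_rfl).1 h1
    have h5 := hN.2 j p hp h4
    have h6 := hWp p hp h2
    linarith
  rw [← Finset.sum_fiberwise_of_maps_to hmap]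
  refine sum_congr rfl fun b hb => ?_
  rw [mem_filter, mem_range] at hb
  rw [filter_filter]
  refine sum_congr ?_ fun _ _ => rfl
  apply filter_congr
  intro N _
  unfold Adm Ro
  rw [Nat.mod_eq_of_lt hb.1]
  tauto

private theorem prod_split (x a : ℝ) (W : ℕ) (hW : 0 < W)
    (hWp : ∀ p : ℕ, p.Prime → p ∣ W → (p : ℝ) < x ^ a) (g : ℕ → ℝ) :
    (∏ p ∈ W.primeFactors, g p) * ∏ p ∈ PP x a W, g p = ∏ p ∈ PR x a, g p := by
  classical
  rw [← Finset.prod_filter_mul_prod_filter_not (PR x a) (fun p => p ∣ W)]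
  congr 1
  · refine prod_congr ?_ fun _ _ => rfl
    ext p
    unfold PR
    rw [Nat.mem_primeFactors, mem_filter, mem_filter, mem_range, Nat.lt_ceil]
    constructor
    · rintro ⟨h1, h2, -⟩
      exact ⟨⟨hWp p h1 h2, h1⟩, h2⟩
    · rintro ⟨⟨-, h1⟩, h2⟩
      exact ⟨h1, h2, hW.ne'⟩
  · refine prod_congr ?_ fun _ _ => rfl
    ext p
    unfold PR PP
    rw [mem_filter, mem_filter, mem_filter]
    tauto

private theorem nu_self (p i : ℕ) : nu p i i = 1 := by
  unfold nu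
  rw [if_pos (by simp)]

/-- the product of the primes `≤ w` and the primes dividing `d` -/
private theorem mod_exists (w d : ℕ) (hd : 0 < d) : ∃ W : ℕ, Squarefree W ∧ primorial w ∣ W ∧
    W ≤ primorial w * d ∧ ∀ p : ℕ, p.Prime → p ∣ d → p ∣ W := by
  classical
  obtain ⟨S, hS⟩ : ∃ S : Finset ℕ, S = (range (w + 1)).filter Nat.Prime := ⟨_, rfl⟩
  have hprim : primorial w = ∏ p ∈ S, p := by rw [hS]; rfl
  have hmem : ∀ p ∈ S ∪ d.primeFactors, p.Prime := by
    intro p hp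
    rw [mem_union, hS, mem_filter, Nat.mem_primeFactors] at hp
    rcases hp with h | h
    · exact h.2
    · exact h.1
  refine ⟨∏ p ∈ S ∪ d.primeFactors, p, ?_, ?_, ?_, ?_⟩
  · refine Finset.squarefree_prod_of_pairwise_isCoprime (fun p hp q hq hpq => ?_)
      (fun p hp => (hmem p hp).squarefree)
    have h1 : Nat.Coprime p q := (Nat.coprime_primes (hmem p hp) (hmem q hq)).2 hpq
    exact Nat.coprime_iff_isRelPrime.1 h1
  · rw [hprim]
    exact Finset.prod_dvd_prod_of_subset _ _ _ subset_union_left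
  · have h1 := Finset.prod_union_inter (s₁ := S) (s₂ := d.primeFactors) (f := fun p : ℕ => p)
    have h2 : 1 ≤ ∏ p ∈ S ∩ d.primeFactors, p := by
      apply Finset.one_le_prod'
      intro p hp
      exact (hmem p (mem_union_left _ (mem_inter.1 hp).1)).one_lt.le
    have h3 : ∏ p ∈ d.primeFactors, p ≤ d := Nat.le_of_dvd hd (Nat.prod_primeFactors_dvd d)
    calc ∏ p ∈ S ∪ d.primeFactors, p
        ≤ (∏ p ∈ S ∪ d.primeFactors, p) * ∏ p ∈ S ∩ d.primeFactors, p :=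
          Nat.le_mul_of_pos_right _ h2
      _ = (∏ p ∈ S, p) * ∏ p ∈ d.primeFactors, p := h1
      _ ≤ primorial w * d := by
          rw [hprim]
          exact Nat.mul_le_mul_left _ h3
  · intro p hp hpd
    have h1 : p ∈ S ∪ d.primeFactors :=
      mem_union_right _ (Nat.mem_primeFactors.2 ⟨hp, hpd, hd.ne'⟩)
    exact Finset.dvd_prod_of_mem (fun p : ℕ => p) h1


open Classical in
/-- one shift -/
theorem oneW (e c : ℝ) (he : 0 < e) (hc : 0 < c) (hc1 : c ≤ 1) : ∃ a1 : ℝ, 0 < a1 ∧ a1 ≤ 1 / 20 ∧ ∀ a : ℝ, 0 < a → a ≤ a1 →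
    ∀ c1 : ℝ, 0 < c1 → ∀ᶠ x : ℝ in atTop,
      ∀ (T : Finset ℕ) (i : ℕ) (Φ : ℕ → ℝ) (X : ℝ), (i : ℝ) ≤ Real.log x ^ 2 → 0 ≤ X → (∀ n, 0 ≤ Φ n) →
      Dist T Φ X x (x ^ a) (x ^ (1 - c1)) (x ^ (1 - c)) →
        |∑ N ∈ T.filter (fun N => Ro x a (N + i)), Φ N - X * v1 (PR x a)| ≤
          e * (X * v1 (PR x a)) + (x ^ (1 - c1 / 4) + x ^ (1 - c / 4)) := by
  obtain ⟨a1, ha1, ha1', H⟩ := clsW e c he hc hc1
  refine ⟨a1, ha1, ha1', fun a ha haa c1 hc10 => ?_⟩
  obtain ⟨w, H⟩ := H a ha haa c1 hc10 (Fin 1) (by simp)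
  have H := H w le_rfl 4
  have evw := log_lt 4 a ha
  have evc := log_lt 4 (c / 4) (by positivity)
  have evc1 := log_lt 4 (c1 / 4) (by positivity)
  filter_upwards [H, evw, evc, evc1, eventually_ge_atTop (1 : ℝ),
    Real.tendsto_log_atTop.eventually_ge_atTop (1 : ℝ),
    Real.tendsto_log_atTop.eventually_ge_atTop (primorial w : ℝ)] with x H1 evw evc evc1 hx1 hl1 hlw
  intro T i Φ X hi hX hΦ hD
  have hx0 : 0 < x := by linarith
  obtain ⟨l, hl⟩ : ∃ l, l = Real.log x := ⟨_, rfl⟩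
  rw [← hl] at evw evc evc1 hl1 hlw hi
  have hl0 : 0 < l := by linarith
  have hl4 : l ^ (4 : ℝ) = l ^ 4 := by
    rw [← Real.rpow_natCast]
    norm_num
  have hl24 : l ^ 2 ≤ l ^ (4 : ℝ) := by
    rw [hl4]
    exact pow_le_pow_right₀ hl1 (by norm_num)
  have hW4 : (primorial w : ℝ) * l ^ 2 ≤ l ^ (4 : ℝ) := by
    rw [hl4]
    calc (primorial w : ℝ) * l ^ 2 ≤ l * l ^ 2 := by gcongr
      _ = l ^ 3 := by ring
      _ ≤ l ^ 4 := pow_le_pow_right₀ hl1 (by norm_num)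
  obtain ⟨W, hWd⟩ : ∃ W, W = primorial w := ⟨_, rfl⟩
  have hW : 0 < W := hWd ▸ primorial_pos w
  have hWR : (0 : ℝ) < W := by exact_mod_cast hW
  have hWl : (W : ℝ) ≤ l ^ (4 : ℝ) := by
    rw [hWd]
    refine le_trans ?_ hW4
    have : (1 : ℝ) ≤ l ^ 2 := one_le_pow₀ hl1
    exact le_mul_of_one_le_right (by positivity) this
  have hWp : ∀ p : ℕ, p.Prime → p ∣ W → (p : ℝ) < x ^ a := by
    intro p hp hd
    have h1 : (p : ℝ) ≤ W := by exact_mod_cast Nat.le_of_dvd hW hd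
    linarith
  have hok : ∀ b : ℕ, Nat.Coprime (b + i) W → Okk 4 w x ![i] W b := by
    intro b hb
    refine ⟨Function.injective_of_subsingleton _, ?_, hWd ▸ squarefree_primorial w,
      hWd ▸ dvd_rfl, by rw [← hl]; exact hWl, ?_, ?_⟩
    · intro j
      rw [Fin.fin_one_eq_zero j, ← hl]
      exact hi.trans hl24
    · intro j j' hjj
      exact absurd (Subsingleton.elim j j') hjj
    · intro j
      rw [Fin.fin_one_eq_zero j]
      exact hb
  have h1 : ∑ N ∈ T.filter (fun N => Ro x a (N + i)), Φ N =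
      ∑ N ∈ T.filter (fun N => ∀ j, Ro x a (N + (![i] : Fin 1 → ℕ) j)), Φ N := by
    congr 1
    apply filter_congr
    intro N _
    simp only [Fin.forall_fin_one, Matrix.cons_val_fin_one]
  rw [h1, all_cls x a ![i] W hW hWp T Φ]
  obtain ⟨A, hA⟩ : ∃ A, A = (range W).filter
    (fun b => ∀ j, Nat.Coprime (b + (![i] : Fin 1 → ℕ) j) W) := ⟨_, rfl⟩
  rw [← hA]
  have hcard : (A.card : ℝ) = W * ∏ p ∈ W.primeFactors, (1 - 1 / (p : ℝ)) := by
    have h2 := cr W (hWd ▸ squarefree_primorial w) i i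
    have h3 : A = (range W).filter
        (fun b => Nat.Coprime (b + i) W ∧ Nat.Coprime (b + i) W) := by
      rw [hA]
      apply filter_congr
      intro b _
      simp only [Fin.forall_fin_one, Matrix.cons_val_fin_one, and_self]
    rw [h3, h2]
    unfold sf
    simp only [nu_self]
  have hAW : (A.card : ℝ) ≤ l ^ (4 : ℝ) := by
    refine le_trans ?_ hWl
    rw [hA]
    exact_mod_cast (card_filter_le _ _).trans (card_range W).le
  obtain ⟨M, hM⟩ : ∃ M, M = X / W * Pool.Agent.H95.FL.vv (fun p => 1 / (p : ℝ)) (PP x a W) :=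
    ⟨_, rfl⟩
  have hAM : X * v1 (PR x a) = ∑ _b ∈ A, M := by
    rw [sum_const, nsmul_eq_mul, hcard, hM]
    unfold v1 Pool.Agent.H95.FL.vv
    rw [← prod_split x a W hW hWp (fun p => 1 - 1 / (p : ℝ))]
    field_simp
  have herr : (A.card : ℝ) * (x ^ (1 - c1 / 2) + x ^ (1 - c / 2)) ≤ x ^ (1 - c1 / 4) + x ^ (1 - c / 4) := by
    have e1 : (A.card : ℝ) * x ^ (1 - c1 / 2) ≤ x ^ (1 - c1 / 4) := by
      calc (A.card : ℝ) * x ^ (1 - c1 / 2) ≤ x ^ (c1 / 4) * x ^ (1 - c1 / 2) :=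
            mul_le_mul_of_nonneg_right (hAW.trans evc1.le) (by positivity)
        _ = x ^ (1 - c1 / 4) := by
            rw [← Real.rpow_add hx0]
            congr 1
            ring
    have e2 : (A.card : ℝ) * x ^ (1 - c / 2) ≤ x ^ (1 - c / 4) := by
      calc (A.card : ℝ) * x ^ (1 - c / 2) ≤ x ^ (c / 4) * x ^ (1 - c / 2) :=
            mul_le_mul_of_nonneg_right (hAW.trans evc.le) (by positivity)
        _ = x ^ (1 - c / 4) := by
            rw [← Real.rpow_add hx0]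
            congr 1
            ring
    rw [mul_add]
    linarith
  rw [hAM, ← sum_sub_distrib]
  refine (abs_sum_le_sum_abs _ _).trans ?_
  refine le_trans (sum_le_sum (g := fun _ => e * M + (x ^ (1 - c1 / 2) + x ^ (1 - c / 2))) ?_) ?_
  · intro b hb
    rw [hA, mem_filter] at hb
    have h4 := H1 T ![i] W b Φ X hX hΦ hD (hok b (by simpa using hb.2 0))
    simp only [Fintype.card_fin, Nat.cast_one] at h4
    rw [hM]
    exact h4
  · rw [sum_add_distrib, sum_const, sum_const, sum_const, nsmul_eq_mul, nsmul_eq_mul, nsmul_eq_mul]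
    linarith

open Classical in
/-- two shifts -/
theorem twoW (e c : ℝ) (he : 0 < e) (hc : 0 < c) (hc1 : c ≤ 1) : ∃ a1 : ℝ, 0 < a1 ∧ a1 ≤ 1 / 20 ∧ ∀ a : ℝ, 0 < a → a ≤ a1 →
    ∀ c1 : ℝ, 0 < c1 → ∀ᶠ x : ℝ in atTop,
      ∀ (T : Finset ℕ) (i j : ℕ) (Φ : ℕ → ℝ) (X : ℝ), i ≠ j → (i : ℝ) ≤ Real.log x ^ 2 → (j : ℝ) ≤ Real.log x ^ 2 →
      0 ≤ X → (∀ n, 0 ≤ Φ n) →
      Dist T Φ X x (x ^ a) (x ^ (1 - c1)) (x ^ (1 - c)) →
        ∑ N ∈ T.filter (fun N => Ro x a (N + i) ∧ Ro x a (N + j)), Φ N ≤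
          (1 + e) * (X * sf (PR x a) i j) + (x ^ (1 - c1 / 4) + x ^ (1 - c / 4)) := by
  obtain ⟨a1, ha1, ha1', H⟩ := clsW e c he hc hc1
  refine ⟨a1, ha1, ha1', fun a ha haa c1 hc10 => ?_⟩
  obtain ⟨w, H⟩ := H a ha haa c1 hc10 (Fin 2) (by simp)
  have H := H w le_rfl 4
  have evw := log_lt 4 a ha
  have evc := log_lt 4 (c / 4) (by positivity)
  have evc1 := log_lt 4 (c1 / 4) (by positivity)
  filter_upwards [H, evw, evc, evc1, eventually_ge_atTop (1 : ℝ),
    Real.tendsto_log_atTop.eventually_ge_atTop (1 : ℝ),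
    Real.tendsto_log_atTop.eventually_ge_atTop (primorial w : ℝ)] with x H2 evw evc evc1 hx1 hl1 hlw
  intro T i j Φ X hij hi hj hX hΦ hD
  have hx0 : 0 < x := by linarith
  obtain ⟨l, hl⟩ : ∃ l, l = Real.log x := ⟨_, rfl⟩
  rw [← hl] at evw evc evc1 hl1 hlw hi hj
  have hl0 : 0 < l := by linarith
  have hl4 : l ^ (4 : ℝ) = l ^ 4 := by
    rw [← Real.rpow_natCast]
    norm_num
  have hl24 : l ^ 2 ≤ l ^ (4 : ℝ) := by
    rw [hl4]
    exact pow_le_pow_right₀ hl1 (by norm_num)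
  have hW4 : (primorial w : ℝ) * l ^ 2 ≤ l ^ (4 : ℝ) := by
    rw [hl4]
    calc (primorial w : ℝ) * l ^ 2 ≤ l * l ^ 2 := by gcongr
      _ = l ^ 3 := by ring
      _ ≤ l ^ 4 := pow_le_pow_right₀ hl1 (by norm_num)
  obtain ⟨d, hdd⟩ : ∃ d, d = ((i : ℤ) - j).natAbs := ⟨_, rfl⟩
  have hd : 0 < d := by
    rw [hdd, Int.natAbs_pos]
    omega
  have hdl : (d : ℝ) ≤ l ^ 2 := by
    rcases le_total i j with h | h
    · have : d ≤ j := by omega
      exact le_trans (by exact_mod_cast this) hj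
    · have : d ≤ i := by omega
      exact le_trans (by exact_mod_cast this) hi
  obtain ⟨W, hWs, hWw, hWd, hWdiv⟩ := mod_exists w d hd
  have hW : 0 < W := Nat.pos_of_ne_zero hWs.ne_zero
  have hWR : (0 : ℝ) < W := by exact_mod_cast hW
  have hWl : (W : ℝ) ≤ l ^ (4 : ℝ) := by
    have h1 : (W : ℝ) ≤ (primorial w : ℝ) * d := by exact_mod_cast hWd
    refine (h1.trans ?_).trans hW4
    exact mul_le_mul_of_nonneg_left hdl (by positivity)
  have hWp : ∀ p : ℕ, p.Prime → p ∣ W → (p : ℝ) < x ^ a := by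
    intro p hp hd
    have h1 : (p : ℝ) ≤ W := by exact_mod_cast Nat.le_of_dvd hW hd
    linarith
  have hdvd : ∀ p : ℕ, p.Prime → (p : ℤ) ∣ (i : ℤ) - j → p ∣ W := by
    intro p hp h1
    apply hWdiv p hp
    rw [hdd]
    exact Int.natCast_dvd.1 h1
  have hok : ∀ b : ℕ, Nat.Coprime (b + i) W → Nat.Coprime (b + j) W →
      Okk 4 w x ![i, j] W b := by
    intro b hb hb'
    refine ⟨?_, ?_, hWs, hWw, by rw [← hl]; exact hWl, ?_, ?_⟩
    · intro s t hst
      fin_cases s <;> fin_cases t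
      · rfl
      · exact absurd hst hij
      · exact absurd hst hij.symm
      · rfl
    · rw [Fin.forall_fin_two, ← hl]
      exact ⟨hi.trans hl24, hj.trans hl24⟩
    · intro s t hst p hp hpd
      fin_cases s <;> fin_cases t
      · exact absurd rfl hst
      · exact hdvd p hp hpd
      · apply hdvd p hp
        rw [← dvd_neg]
        have h1 : -((i : ℤ) - j) = (j : ℤ) - i := by ring
        rw [h1]
        exact hpd
      · exact absurd rfl hst
    · rw [Fin.forall_fin_two]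
      exact ⟨hb, hb'⟩
  have h1 : ∑ N ∈ T.filter (fun N => Ro x a (N + i) ∧ Ro x a (N + j)), Φ N =
      ∑ N ∈ T.filter (fun N => ∀ s, Ro x a (N + (![i, j] : Fin 2 → ℕ) s)), Φ N := by
    congr 1
    apply filter_congr
    intro N _
    rw [Fin.forall_fin_two]
    rfl
  rw [h1, all_cls x a ![i, j] W hW hWp T Φ]
  obtain ⟨A, hA⟩ : ∃ A, A = (range W).filter
    (fun b => ∀ s, Nat.Coprime (b + (![i, j] : Fin 2 → ℕ) s) W) := ⟨_, rfl⟩
  rw [← hA]
  have hA2 : A = (range W).filter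
      (fun b => Nat.Coprime (b + i) W ∧ Nat.Coprime (b + j) W) := by
    rw [hA]
    apply filter_congr
    intro b _
    rw [Fin.forall_fin_two]
    rfl
  have hcard : (A.card : ℝ) = W * ∏ p ∈ W.primeFactors, (1 - nu p i j / (p : ℝ)) := by
    rw [hA2]
    exact cr W hWs i j
  have hAW : (A.card : ℝ) ≤ l ^ (4 : ℝ) := by
    refine le_trans ?_ hWl
    rw [hA]
    exact_mod_cast (card_filter_le _ _).trans (card_range W).le
  obtain ⟨M, hM⟩ : ∃ M, M = X / W * Pool.Agent.H95.FL.vv (fun p => 2 / (p : ℝ)) (PP x a W) := ⟨_, rfl⟩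
  have hAM : X * sf (PR x a) i j = ∑ _b ∈ A, M := by
    rw [sum_const, nsmul_eq_mul, hcard, hM]
    unfold sf Pool.Agent.H95.FL.vv
    rw [← prod_split x a W hW hWp (fun p => 1 - nu p i j / (p : ℝ))]
    have h3 : ∏ p ∈ PP x a W, (1 - nu p i j / (p : ℝ)) = ∏ p ∈ PP x a W, (1 - 2 / (p : ℝ)) := by
      apply prod_congr rfl
      intro p hp
      obtain ⟨-, h4, h5⟩ := mem_PP.1 hp
      unfold nu
      rw [if_neg (fun h => h5 (hdvd p h4 h))]
    rw [h3]
    field_simp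
  have herr : (A.card : ℝ) * (x ^ (1 - c1 / 2) + x ^ (1 - c / 2)) ≤ x ^ (1 - c1 / 4) + x ^ (1 - c / 4) := by
    have e1 : (A.card : ℝ) * x ^ (1 - c1 / 2) ≤ x ^ (1 - c1 / 4) := by
      calc (A.card : ℝ) * x ^ (1 - c1 / 2) ≤ x ^ (c1 / 4) * x ^ (1 - c1 / 2) :=
            mul_le_mul_of_nonneg_right (hAW.trans evc1.le) (by positivity)
        _ = x ^ (1 - c1 / 4) := by
            rw [← Real.rpow_add hx0]
            congr 1
            ring
    have e2 : (A.card : ℝ) * x ^ (1 - c / 2) ≤ x ^ (1 - c / 4) := by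
      calc (A.card : ℝ) * x ^ (1 - c / 2) ≤ x ^ (c / 4) * x ^ (1 - c / 2) :=
            mul_le_mul_of_nonneg_right (hAW.trans evc.le) (by positivity)
        _ = x ^ (1 - c / 4) := by
            rw [← Real.rpow_add hx0]
            congr 1
            ring
    rw [mul_add]
    linarith
  rw [hAM]
  refine le_trans (sum_le_sum (g := fun _ => (1 + e) * M + (x ^ (1 - c1 / 2) + x ^ (1 - c / 2))) ?_) ?_
  · intro b hb
    rw [hA2, mem_filter] at hb
    have h4 := H2 T ![i, j] W b Φ X hX hΦ hD (hok b hb.2.1 hb.2.2)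
    simp only [Fintype.card_fin, Nat.cast_ofNat] at h4
    rw [← hM] at h4
    have h5 := (abs_le.1 h4).2
    linarith
  · rw [sum_add_distrib, sum_const, sum_const, sum_const, nsmul_eq_mul, nsmul_eq_mul, nsmul_eq_mul]
    linarith

end Pool.Agent.H67.SW
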