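import Pool.Agent.H67.SW.Two
import Pool.Agent.H67.SW.D1
import Pool.Agent.H67.SW.D2
import Pool.Agent.H67.SW.Lz
import Pool.Agent.H67.SW.Fz
import Pool.Agent.H1.PS.Sg

/-!
# Module Var: the variance of the majorant in every window

PROOF. `G n = ∑_{i ≤ h} gw (n+i)`, `gw m = nz z R m` if `Ro N a m`, else `0`; `M = h V/Sz`. First moment (`oneW`, `dist_one`), diagonal (`oneW`, `dist_four`, `four`, `v1_le`), pairs (`twoW`,
`dist_two`, `sg`).
-/

set_option autoImplicit false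

namespace Pool.Agent.H67.SW

open Finset Filter Topology Pool.Agent.H11.RG Pool.Agent.H1.PS Pool.Agent.H5.Short

theorem dist_mono {T : Finset ℕ} {ω : ℕ → ℝ} {X Q z e1 e2 e1' e2' : ℝ} (h : Dist T ω X Q z e1 e2)
    (h1 : e1 ≤ e1') (h2 : e2 ≤ e2') : Dist T ω X Q z e1' e2' := by
  intro q r hq hQ hz
  refine (h q r hq hQ hz).trans ?_
  have : (0 : ℝ) < q := by exact_mod_cast hq
  exact add_le_add (div_le_div_of_nonneg_right h1 this.le) h2

theorem E4_nonneg (z : ℝ) (R : ℕ) (hR : 1 ≤ R) : 0 ≤ E4 z R := by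
  by_contra hcon
  push Not at hcon
  obtain ⟨N, hN⟩ := exists_nat_gt ((R : ℝ) ^ 4 / (-(E4 z R)))
  rw [div_lt_iff₀ (by linarith)] at hN
  have h1 := dist_four z 1 R 0 N 0 hR 1 0 one_pos (by norm_num) (fun p hp hd => absurd (Nat.dvd_one.1 hd) hp.one_lt.ne')
  have h2 : 0 ≤ ∑ n ∈ (Ioc 0 (0 + N)).filter (fun N => N % 1 = 0 % 1), (fun n => (nz z R (n + 0)) ^ 2) n :=
    sum_nonneg fun n _ => sq_nonneg _
  have h3 := (abs_le.1 h1).2
  rw [Nat.cast_one, div_one, div_one] at h3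
  have h4 : (N : ℝ) * E4 z R = -(N * -E4 z R) := by ring
  rw [h4] at h3
  linarith

open Classical in
/-- the weight -/
noncomputable def gw (x a : ℝ) (R n : ℕ) : ℝ := if Ro x a n then nz (x ^ a) R n else 0

theorem gw_nonneg (x a : ℝ) (R n : ℕ) : 0 ≤ gw x a R n := by
  unfold gw
  split_ifs
  · exact sq_nonneg _
  · exact le_rfl

theorem gw_prime (x a : ℝ) (R p : ℕ) (hR : 1 ≤ R) (hp : p.Prime) (hRp : R < p) (hx : x ^ a ≤ p) : gw x a R p = 1 := by
  unfold gw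
  rw [if_pos, nz_prime (x ^ a) R p hR hp hRp]
  intro q hq hqp
  rw [(Nat.prime_dvd_prime_iff_eq hq hp).1 hqp]
  exact hx

private theorem var_alg (T : Finset ℕ) (G : ℕ → ℝ) (M : ℝ) :
    ∑ n ∈ T, (G n - M) ^ 2 = ∑ n ∈ T, G n ^ 2 - 2 * M * ∑ n ∈ T, G n + M ^ 2 * T.card := by
  rw [mul_sum, ← sum_sub_distrib, mul_comm (M ^ 2), ← nsmul_eq_mul, ← sum_const,
    ← sum_add_distrib]
  refine sum_congr rfl fun n _ => ?_
  ring

/-- the expansion of the second moment -/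
private theorem sq_exp (T : Finset ℕ) (g : ℕ → ℝ) (h : ℕ) :
    ∑ N ∈ T, (∑ i ∈ Icc 1 h, g (N + i)) ^ 2 =
      ∑ i ∈ Icc 1 h, ∑ N ∈ T, g (N + i) ^ 2 +
        ∑ i ∈ Icc 1 h, ∑ j ∈ (Icc 1 h).erase i, ∑ N ∈ T, g (N + i) * g (N + j) := by
  have h1 : ∀ N ∈ T, (∑ i ∈ Icc 1 h, g (N + i)) ^ 2 =
      ∑ i ∈ Icc 1 h, (g (N + i) ^ 2 +
        ∑ j ∈ (Icc 1 h).erase i, g (N + i) * g (N + j)) := by
    intro N _
    rw [sq, sum_mul_sum]
    refine sum_congr rfl fun i hi => ?_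
    rw [sq, ← add_sum_erase _ _ hi]
  rw [sum_congr rfl h1, sum_comm, ← sum_add_distrib]
  refine sum_congr rfl fun i _ => ?_
  rw [sum_add_distrib, sum_comm (s := T)]

open Classical in
theorem varW (ε : ℝ) (hε : 0 < ε) (hε1 : ε ≤ 1) : ∃ κ0 : ℝ, 1 ≤ κ0 ∧ ∀ κ : ℝ, κ0 ≤ κ → ∃ N0 : ℕ, ∀ N : ℕ, N0 ≤ N →
    ∀ h : ℕ, κ * Real.log N ≤ h → (h : ℝ) ≤ κ * Real.log N + 1 → ∀ A : ℕ, N ≤ A →
    ∃ (G : ℕ → ℝ) (M : ℝ), 0 ≤ M ∧ M ≤ (4 + ε) * (h / Real.log N) ∧ (∀ n ∈ Ioc A (A + N), (pc n h : ℝ) ≤ G n) ∧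
      ∑ n ∈ Ioc A (A + N), (G n - M) ^ 2 ≤ ε * ((h / Real.log N) ^ 2 * N) := by
  -- parameters
  obtain ⟨η, hη⟩ : ∃ η : ℝ, η = ε / 100 := ⟨_, rfl⟩
  have hη0 : 0 < η := by rw [hη]; positivity
  have hη1 : η ≤ 1 / 100 := by rw [hη]; linarith
  obtain ⟨c, hc⟩ : ∃ c : ℝ, c = 4 * η := ⟨_, rfl⟩
  have hc0 : 0 < c := by rw [hc]; positivity
  have hc1 : c ≤ 1 := by rw [hc]; linarith
  obtain ⟨e, he⟩ : ∃ e : ℝ, e = ε / 400 := ⟨_, rfl⟩
  have he0 : 0 < e := by rw [he]; positivity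
  have he1 : e ≤ 1 := by rw [he]; linarith
  obtain ⟨a1, ha1, ha1', H1⟩ := oneW e c he0 hc0 hc1
  obtain ⟨a2, ha2, ha2', H2⟩ := twoW e c he0 hc0 hc1
  obtain ⟨a, ha⟩ : ∃ a : ℝ, a = min a1 a2 := ⟨_, rfl⟩
  have ha0 : 0 < a := by rw [ha]; exact lt_min ha1 ha2
  have haa1 : a ≤ a1 := by rw [ha]; exact min_le_left _ _
  have haa2 : a ≤ a2 := by rw [ha]; exact min_le_right _ _
  have ha20 : a ≤ 1 / 20 := haa1.trans ha1'
  obtain ⟨c1, hc1d⟩ : ∃ c1 : ℝ, c1 = a / 2 := ⟨_, rfl⟩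
  have hc10 : 0 < c1 := by rw [hc1d]; positivity
  have H1 := H1 a ha0 haa1 c1 hc10
  have H2 := H2 a ha0 haa2 c1 hc10
  obtain ⟨C, hC, H4⟩ := four a ha0 (by linarith)
  have HV := v1_le a ha0 (by linarith)
  refine ⟨max 1 (8 * C / (a * ε)), le_max_left _ _, fun κ hκ => ?_⟩
  have hκ1 : 1 ≤ κ := (le_max_left _ _).trans hκ
  have hκ0 : 0 < κ := by linarith
  have hκ2 : 8 * C ≤ κ * (a * ε) := by
    have : 8 * C / (a * ε) ≤ κ := (le_max_right _ _).trans hκ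
    rwa [div_le_iff₀ (by positivity)] at this
  have ev1 := Pool.Agent.H96.UL.log_lt 6 (a / 4) (by positivity)
  have ev2 : ∀ᶠ x : ℝ in atTop, (40 * 2 ^ 6 : ℝ) ≤ x ^ (a / 4) :=
    (tendsto_rpow_atTop (by positivity)).eventually_ge_atTop _
  have ev3 := Pool.Agent.H96.UL.log_lt 4 (c1 / 8) (by positivity)
  have ev4 := Pool.Agent.H96.UL.log_lt 4 (c / 8) (by positivity)
  have ev5 : ∀ᶠ x : ℝ in atTop, (64 / ε : ℝ) ≤ x ^ (c1 / 8) :=
    (tendsto_rpow_atTop (by positivity)).eventually_ge_atTop _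
  have ev6 : ∀ᶠ x : ℝ in atTop, (64 / ε : ℝ) ≤ x ^ (c / 8) :=
    (tendsto_rpow_atTop (by positivity)).eventually_ge_atTop _
  have ev7 : ∀ᶠ x : ℝ in atTop, (2 : ℝ) ≤ x ^ η :=
    (tendsto_rpow_atTop hη0).eventually_ge_atTop _
  have ev8 : ∀ᶠ x : ℝ in atTop, (Real.log x) ^ (2 : ℝ) < x ^ a :=
    Pool.Agent.H96.UL.log_lt 2 a ha0
  have hev := (((((H1.and H2).and (H4.and HV)).and ((ev1.and ev2).and (ev3.and ev4))).and
    ((ev5.and ev6).and (ev7.and ev8))).and (eventually_ge_atTop (16 : ℝ))).and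
      (Real.tendsto_log_atTop.eventually_ge_atTop (2 * κ + 4))
  obtain ⟨N0, hN0⟩ := eventually_atTop.1 (tendsto_natCast_atTop_atTop (R := ℝ) |>.eventually hev)
  refine ⟨N0, fun N hN h hh1 hh2 A hA => ?_⟩
  obtain ⟨⟨⟨⟨⟨⟨H1, H2⟩, ⟨H4, HV⟩⟩, ⟨⟨ev1, ev2⟩, ev3, ev4⟩⟩, ⟨ev5, ev6⟩, ev7, ev8⟩, hx16⟩, hlx⟩ := hN0 N hN
  obtain ⟨x, hx⟩ : ∃ x : ℝ, x = (N : ℝ) := ⟨_, rfl⟩
  rw [← hx] at H1 H2 H4 HV ev1 ev2 ev3 ev4 ev5 ev6 ev7 ev8 hx16 hlx hh1 hh2 ⊢
  have hx0 : 0 < x := by linarith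
  have hx1 : 1 ≤ x := by linarith
  obtain ⟨L, hL⟩ : ∃ L : ℝ, L = Real.log x := ⟨_, rfl⟩
  rw [← hL] at H1 H2 HV ev1 ev3 ev4 ev8 hlx hh1 hh2 ⊢
  have hL4 : 6 ≤ L := by linarith
  have hL0 : 0 < L := by linarith
  have hhL : (h : ℝ) ≤ L ^ 2 := by nlinarith
  have hh0 : (1 : ℝ) ≤ h := by nlinarith
  -- the level
  obtain ⟨R, hR⟩ : ∃ R : ℕ, R = ⌊x ^ (1 / 4 - η)⌋₊ := ⟨_, rfl⟩
  have hxp : 1 ≤ x ^ (1 / 4 - η) := Real.one_le_rpow hx1 (by linarith)
  have hRu : (R : ℝ) ≤ x ^ (1 / 4 - η) := by rw [hR]; exact Nat.floor_le (by positivity)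
  have hR1 : 1 ≤ R := by rw [hR]; exact Nat.le_floor (by rw [Nat.cast_one]; exact hxp)
  have hR1R : (1 : ℝ) ≤ R := by exact_mod_cast hR1
  have hRl : x ^ (1 / 4 - 2 * η) ≤ R := by
    have h1 : x ^ (1 / 4 - η) < R + 1 := by rw [hR]; exact Nat.lt_floor_add_one _
    have h2 : x ^ (1 / 4 - η) = x ^ (1 / 4 - 2 * η) * x ^ η := by
      rw [← Real.rpow_add hx0]
      congr 1
      ring
    have h3 : 0 < x ^ (1 / 4 - 2 * η) := Real.rpow_pos_of_pos hx0 _
    nlinarith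
  have hRx : (R : ℝ) ≤ x := by
    refine hRu.trans ?_
    calc x ^ (1 / 4 - η) ≤ x ^ (1 : ℝ) := Real.rpow_le_rpow_of_exponent_le hx1 (by linarith)
      _ = x := Real.rpow_one x
  have hR4 : (R : ℝ) ^ 4 ≤ x ^ (1 - c) := by
    calc (R : ℝ) ^ 4 ≤ (x ^ (1 / 4 - η)) ^ 4 := pow_le_pow_left₀ (by positivity) hRu 4
      _ = x ^ (1 - c) := by
          rw [← Real.rpow_natCast, ← Real.rpow_mul hx0.le]
          congr 1
          rw [hc]
          push_cast
          ring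
  have hR2 : (R : ℝ) ^ 2 ≤ x ^ (1 - c) := (pow_le_pow_right₀ hR1R (by norm_num)).trans hR4
  have hlogR : (1 / 4 - 2 * η) * L ≤ Real.log R := by
    have := Real.log_le_log (Real.rpow_pos_of_pos hx0 _) hRl
    rwa [Real.log_rpow hx0, ← hL] at this
  have hlogR2 : Real.log R ≤ L := by
    rw [hL]
    exact Real.log_le_log (by linarith) hRx
  have hlogR0 : 0 < Real.log R := lt_of_lt_of_le (mul_pos (by linarith) hL0) hlogR
  -- the mean
  obtain ⟨V, hV⟩ : ∃ V : ℝ, V = v1 (PR x a) := ⟨_, rfl⟩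
  rw [← hV] at H1 HV
  have hPR : ∀ p ∈ PR x a, p.Prime := fun p hp => (mem_filter.1 hp).2
  have hV0 : 0 < V := by
    rw [hV]
    unfold v1
    refine prod_pos fun p hp => ?_
    have h1 : (2 : ℝ) ≤ p := by exact_mod_cast (hPR p hp).two_le
    have h2 : 1 / (p : ℝ) ≤ 1 / 2 := one_div_le_one_div_of_le (by norm_num) h1
    linarith
  obtain ⟨z, hz⟩ : ∃ z : ℝ, z = x ^ a := ⟨_, rfl⟩
  have hz1 : 1 ≤ z := by rw [hz]; exact Real.one_le_rpow hx1 ha0.le
  obtain ⟨s, hs⟩ : ∃ s : ℝ, s = Sz z R := ⟨_, rfl⟩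
  have hs0 : 0 < s := by rw [hs]; exact Sz_pos z R hR1
  have hVs : V * Real.log R ≤ s := by
    have := logz x a R hR1
    rwa [← hV, ← hz, ← hs] at this
  obtain ⟨μ, hμ⟩ : ∃ μ : ℝ, μ = (h : ℝ) / L := ⟨_, rfl⟩
  have hμ0 : 0 < μ := by rw [hμ]; positivity
  have hμκ : κ ≤ μ := by
    rw [hμ, le_div_iff₀ hL0]
    exact hh1
  obtain ⟨M, hM⟩ : ∃ M : ℝ, M = h * (V * (1 / s)) := ⟨_, rfl⟩
  have hM0 : 0 ≤ M := by rw [hM]; positivity
  have hMle : M ≤ (4 + ε) * μ := by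
    have h1 : V * (1 / s) ≤ 1 / Real.log R := by
      rw [mul_one_div, div_le_div_iff₀ hs0 hlogR0]
      linarith
    have h2 : 1 / Real.log R ≤ (4 + ε) * (1 / L) := by
      rw [mul_one_div, div_le_div_iff₀ hlogR0 hL0]
      have h3 : 1 ≤ (4 + ε) * (1 / 4 - 2 * η) := by
        rw [hη]
        nlinarith
      nlinarith
    calc M = h * (V * (1 / s)) := hM
      _ ≤ h * ((4 + ε) * (1 / L)) := mul_le_mul_of_nonneg_left (h1.trans h2) (by positivity)
      _ = (4 + ε) * μ := by rw [hμ]; ring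
  have hM5 : M ≤ 5 * μ := hMle.trans (mul_le_mul_of_nonneg_right (by linarith) hμ0.le)
  rw [← hμ]
  -- errors
  obtain ⟨err, herr⟩ : ∃ err : ℝ, err = x ^ (1 - c1 / 4) + x ^ (1 - c / 4) := ⟨_, rfl⟩
  rw [← herr] at H1 H2
  have herr0 : 0 < err := by rw [herr]; positivity
  have hL44 : L ^ (4 : ℝ) = L ^ 4 := by
    rw [← Real.rpow_natCast]
    norm_num
  have herrL : L ^ 4 * err ≤ ε / 32 * x := by
    have h1 : L ^ 4 * x ^ (1 - c1 / 4) ≤ ε / 64 * x := by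
      have e1 : x ^ (1 - c1 / 4) * x ^ (c1 / 8) * x ^ (c1 / 8) = x := by
        rw [← Real.rpow_add hx0, ← Real.rpow_add hx0]
        have : 1 - c1 / 4 + c1 / 8 + c1 / 8 = 1 := by ring
        rw [this, Real.rpow_one]
      have e2 : 1 ≤ ε / 64 * x ^ (c1 / 8) := by
        rw [div_le_iff₀ hε] at ev5
        linarith
      rw [hL44] at ev3
      calc L ^ 4 * x ^ (1 - c1 / 4) ≤ x ^ (c1 / 8) * x ^ (1 - c1 / 4) :=
            mul_le_mul_of_nonneg_right ev3.le (by positivity)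
        _ = 1 * (x ^ (1 - c1 / 4) * x ^ (c1 / 8)) := by ring
        _ ≤ (ε / 64 * x ^ (c1 / 8)) * (x ^ (1 - c1 / 4) * x ^ (c1 / 8)) :=
            mul_le_mul_of_nonneg_right e2 (by positivity)
        _ = ε / 64 * (x ^ (1 - c1 / 4) * x ^ (c1 / 8) * x ^ (c1 / 8)) := by ring
        _ = ε / 64 * x := by rw [e1]
    have h2 : L ^ 4 * x ^ (1 - c / 4) ≤ ε / 64 * x := by
      have e1 : x ^ (1 - c / 4) * x ^ (c / 8) * x ^ (c / 8) = x := by
        rw [← Real.rpow_add hx0, ← Real.rpow_add hx0]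
        have : 1 - c / 4 + c / 8 + c / 8 = 1 := by ring
        rw [this, Real.rpow_one]
      have e2 : 1 ≤ ε / 64 * x ^ (c / 8) := by
        rw [div_le_iff₀ hε] at ev6
        linarith
      rw [hL44] at ev4
      calc L ^ 4 * x ^ (1 - c / 4) ≤ x ^ (c / 8) * x ^ (1 - c / 4) :=
            mul_le_mul_of_nonneg_right ev4.le (by positivity)
        _ = 1 * (x ^ (1 - c / 4) * x ^ (c / 8)) := by ring
        _ ≤ (ε / 64 * x ^ (c / 8)) * (x ^ (1 - c / 4) * x ^ (c / 8)) :=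
            mul_le_mul_of_nonneg_right e2 (by positivity)
        _ = ε / 64 * (x ^ (1 - c / 4) * x ^ (c / 8) * x ^ (c / 8)) := by ring
        _ = ε / 64 * x := by rw [e1]
    rw [herr, mul_add]
    linarith
  have hxc1 : (0 : ℝ) ≤ x ^ (1 - c1) := by positivity
  have he1b : x * (40 * (1 + Real.log R) ^ 6 / z) ≤ x ^ (1 - c1) := by
    have h1 : (1 + Real.log R) ^ 6 ≤ 2 ^ 6 * L ^ 6 := by
      rw [← mul_pow]
      exact pow_le_pow_left₀ (by linarith) (by linarith) 6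
    have h2 : L ^ (6 : ℝ) = L ^ 6 := by
      rw [← Real.rpow_natCast]
      norm_num
    rw [h2] at ev1
    have h3 : 40 * (1 + Real.log R) ^ 6 ≤ x ^ (a / 4) * x ^ (a / 4) := by
      calc 40 * (1 + Real.log R) ^ 6 ≤ 40 * (2 ^ 6 * L ^ 6) := mul_le_mul_of_nonneg_left h1 (by norm_num)
        _ = (40 * 2 ^ 6) * L ^ 6 := by ring
        _ ≤ x ^ (a / 4) * x ^ (a / 4) := mul_le_mul ev2 ev1.le (by positivity) (by positivity)
    calc x * (40 * (1 + Real.log R) ^ 6 / z) ≤ x * (x ^ (a / 4) * x ^ (a / 4) / z) := by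
          gcongr
      _ = x ^ (1 - c1) := by
          rw [hz, hc1d, ← Real.rpow_add hx0, ← Real.rpow_sub hx0]
          nth_rewrite 1 [← Real.rpow_one x]
          rw [← Real.rpow_add hx0]
          congr 1
          ring
  -- shorthand
  obtain ⟨T, hT⟩ : ∃ T : Finset ℕ, T = Ioc A (A + N) := ⟨_, rfl⟩
  have hTc : (T.card : ℝ) = x := by
    rw [hT, Nat.card_Ioc, hx]
    congr 1
    omega
  have hcard : (((Icc 1 h).card : ℕ) : ℝ) = h := by
    rw [Nat.card_Icc, Nat.add_sub_cancel]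
  have hi2 : ∀ i ∈ Icc 1 h, (i : ℝ) ≤ L ^ 2 := by
    intro i hi
    have h2 : (i : ℝ) ≤ h := by exact_mod_cast (mem_Icc.1 hi).2
    linarith
  have hone : ∀ i ∈ Icc 1 h, (1 - e) * (x * (V * (1 / s))) - err ≤ ∑ n ∈ T, gw x a R (n + i) := by
    intro i hi
    have hD : Dist T (fun n => nz z R (n + i)) (x * (1 / s)) x (x ^ a) (x ^ (1 - c1)) (x ^ (1 - c)) := by
      rw [hT, ← hz, hs, hx]
      refine dist_mono (dist_one z _ R A N i hR1) ?_ ?_
      · rw [← hx]; exact hxc1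
      · rw [← hx]; exact hR2
    have h3 := H1 T i (fun n => nz z R (n + i)) (x * (1 / s)) (hi2 i hi) (by positivity) (fun n => sq_nonneg _) hD
    have h4 := (abs_le.1 h3).1
    have h5 : ∑ n ∈ T, gw x a R (n + i) = ∑ n ∈ T.filter (fun n => Ro x a (n + i)), nz z R (n + i) := by
      rw [sum_filter, hz]
      rfl
    rw [h5]
    have h6 : x * (1 / s) * V = x * (V * (1 / s)) := by ring
    rw [h6] at h4
    linarith
  have hdiag : ∀ i ∈ Icc 1 h, ∑ n ∈ T, gw x a R (n + i) ^ 2 ≤ 2 * (x * C * V) + err := by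
    intro i hi
    have hE0 : 0 ≤ E4 z R := E4_nonneg z R hR1
    have hE : |E4 z R| ≤ C := by rw [hz]; exact H4 R hR1 hRx
    have hD : Dist T (fun n => nz z R (n + i) ^ 2) (x * E4 z R) x (x ^ a) (x ^ (1 - c1)) (x ^ (1 - c)) := by
      rw [hT, ← hz, hx]
      refine dist_mono (dist_four z _ R A N i hR1) ?_ ?_
      · rw [← hx]; exact hxc1
      · rw [← hx]; exact hR4
    have h5 : ∑ n ∈ T, gw x a R (n + i) ^ 2 = ∑ n ∈ T.filter (fun n => Ro x a (n + i)), nz z R (n + i) ^ 2 := by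
      rw [sum_filter]
      refine sum_congr rfl fun n _ => ?_
      unfold gw
      rw [← hz]
      split_ifs
      · rfl
      · ring
    rw [h5]
    have h3 := H1 T i (fun n => nz z R (n + i) ^ 2) (x * E4 z R) (hi2 i hi) (by positivity)
      (fun n => sq_nonneg _) hD
    have h4 := (abs_le.1 h3).2
    have h6 : x * E4 z R * V ≤ x * C * V := by
      have := (abs_le.1 hE).2
      gcongr
    have h7 : 0 ≤ x * E4 z R * V := by positivity
    nlinarith
  have hpair : ∀ i ∈ Icc 1 h, ∀ j ∈ (Icc 1 h).erase i,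
      ∑ n ∈ T, gw x a R (n + i) * gw x a R (n + j) ≤ (1 + e) * (x * (1 / s) ^ 2) * sf (PR x a) i j + err := by
    intro i hi j hj
    have hij : i ≠ j := (ne_of_mem_erase hj).symm
    have hj' := mem_of_mem_erase hj
    have hzij : (((i : ℤ) - j).natAbs : ℝ) < z := by
      have h1 : (((i : ℤ) - j).natAbs : ℝ) ≤ L ^ 2 := by
        rcases le_total i j with h' | h'
        · have : ((i : ℤ) - j).natAbs ≤ j := by omega
          exact le_trans (by exact_mod_cast this) (hi2 j hj')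
        · have : ((i : ℤ) - j).natAbs ≤ i := by omega
          exact le_trans (by exact_mod_cast this) (hi2 i hi)
      refine lt_of_le_of_lt h1 ?_
      rw [hz, ← Real.rpow_two]
      exact ev8
    have hD : Dist T (fun n => nz z R (n + i) * nz z R (n + j)) (x * (1 / s) ^ 2) x (x ^ a) (x ^ (1 - c1))
        (x ^ (1 - c)) := by
      rw [hT, ← hz, hs]
      have h1 := dist_two z x R A N i j hz1 hR1 hij hzij
      rw [← hx] at h1
      exact dist_mono h1 he1b hR4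
    have h3 := H2 T i j (fun n => nz z R (n + i) * nz z R (n + j)) (x * (1 / s) ^ 2) hij (hi2 i hi) (hi2 j hj')
      (by positivity) (fun n => mul_nonneg (sq_nonneg _) (sq_nonneg _)) hD
    have h5 : ∑ n ∈ T, gw x a R (n + i) * gw x a R (n + j) =
        ∑ n ∈ T.filter (fun n => Ro x a (n + i) ∧ Ro x a (n + j)), nz z R (n + i) * nz z R (n + j) := by
      rw [sum_filter]
      refine sum_congr rfl fun n _ => ?_
      unfold gw
      rw [← hz]
      by_cases q1 : Ro x a (n + i)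
      · by_cases q2 : Ro x a (n + j)
        · rw [if_pos q1, if_pos q2, if_pos ⟨q1, q2⟩]
        · have hn : ¬ (Ro x a (n + i) ∧ Ro x a (n + j)) := fun hq => q2 hq.2
          rw [if_neg q2, if_neg hn, mul_zero]
      · have hn : ¬ (Ro x a (n + i) ∧ Ro x a (n + j)) := fun hq => q1 hq.1
        rw [if_neg q1, if_neg hn, zero_mul]
    rw [h5]
    refine h3.trans (le_of_eq ?_)
    ring
  -- the sums
  obtain ⟨G, hG⟩ : ∃ G : ℕ → ℝ, G = fun n => ∑ i ∈ Icc 1 h, gw x a R (n + i) := ⟨_, rfl⟩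
  have hS1 : (1 - e) * (x * M) - h * err ≤ ∑ n ∈ T, G n := by
    rw [hG, sum_comm]
    have h1 := sum_le_sum hone
    rw [sum_const, nsmul_eq_mul, hcard] at h1
    refine le_trans (le_of_eq ?_) h1
    rw [hM]
    ring
  have hS2 : ∑ n ∈ T, G n ^ 2 ≤ h * (2 * (x * C * V) + err) + ((1 + e) * (x * M ^ 2) + h ^ 2 * err) := by
    rw [hG]
    simp only
    rw [sq_exp T (gw x a R) h]
    apply add_le_add
    · have h1 := sum_le_sum hdiag
      rw [sum_const, nsmul_eq_mul, hcard] at h1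
      exact h1
    · have h1 : ∑ i ∈ Icc 1 h, ∑ j ∈ (Icc 1 h).erase i, ∑ n ∈ T, gw x a R (n + i) * gw x a R (n + j) ≤
          ∑ i ∈ Icc 1 h, ∑ j ∈ (Icc 1 h).erase i, ((1 + e) * (x * (1 / s) ^ 2) * sf (PR x a) i j + err) :=
        sum_le_sum fun i hi => sum_le_sum fun j hj => hpair i hi j hj
      refine h1.trans ?_
      have h2 : ∑ i ∈ Icc 1 h, ∑ j ∈ (Icc 1 h).erase i, ((1 + e) * (x * (1 / s) ^ 2) * sf (PR x a) i j + err) =
          (1 + e) * (x * (1 / s) ^ 2) * (∑ i ∈ Icc 1 h, ∑ j ∈ (Icc 1 h).erase i, sf (PR x a) i j) +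
          ∑ i ∈ Icc 1 h, ∑ j ∈ (Icc 1 h).erase i, err := by
        rw [mul_sum, ← sum_add_distrib]
        refine sum_congr rfl fun i _ => ?_
        rw [mul_sum, ← sum_add_distrib]
      rw [h2]
      apply add_le_add
      · have h3 := sg (PR x a) hPR h
        rw [← hV] at h3
        calc (1 + e) * (x * (1 / s) ^ 2) * (∑ i ∈ Icc 1 h, ∑ j ∈ (Icc 1 h).erase i, sf (PR x a) i j) ≤
              (1 + e) * (x * (1 / s) ^ 2) * ((h : ℝ) ^ 2 * V ^ 2) := mul_le_mul_of_nonneg_left h3 (by positivity)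
          _ = (1 + e) * (x * M ^ 2) := by rw [hM]; ring
      · have h4 : ∀ i ∈ Icc 1 h, ∑ _j ∈ (Icc 1 h).erase i, err ≤ h * err := by
          intro i hi
          rw [sum_const, nsmul_eq_mul]
          apply mul_le_mul_of_nonneg_right _ herr0.le
          have : ((Icc 1 h).erase i).card ≤ (Icc 1 h).card := card_le_card (erase_subset _ _)
          rw [← hcard]
          exact_mod_cast this
        refine (sum_le_sum h4).trans ?_
        rw [sum_const, nsmul_eq_mul, hcard]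
        exact le_of_eq (by ring)
  refine ⟨G, M, hM0, hMle, ?_, ?_⟩
  · intro n hn
    rw [mem_Ioc] at hn
    rw [pc_eq_sum, hG]
    refine sum_le_sum fun i _ => ?_
    split_ifs with hp
    · have hnN : N < n + i := by omega
      have hxn : x ≤ ((n + i : ℕ) : ℝ) := by rw [hx]; exact_mod_cast hnN.le
      rw [gw_prime x a R (n + i) hR1 hp]
      · have : (R : ℝ) < ((n + i : ℕ) : ℝ) := by
          have h1 : (N : ℝ) < ((n + i : ℕ) : ℝ) := by exact_mod_cast hnN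
          linarith
        exact_mod_cast this
      · refine le_trans ?_ hxn
        calc x ^ a ≤ x ^ (1 : ℝ) := Real.rpow_le_rpow_of_exponent_le hx1 (by linarith)
          _ = x := Real.rpow_one x
    · exact gw_nonneg x a R _
  · rw [← hT, var_alg, hTc]
    have hMh : M ≤ h := by
      refine hM5.trans ?_
      rw [hμ, mul_div_assoc', div_le_iff₀ hL0]
      nlinarith
    have k1 : 2 * (x * C * V) * h ≤ ε / 4 * (μ ^ 2 * x) := by
      have h1 : V ≤ 1 / (a * L) := by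
        rw [le_div_iff₀ (by positivity)]
        rw [le_div_iff₀ ha0] at HV
        linarith
      have h2 : V * h ≤ μ / a := by
        calc V * h ≤ 1 / (a * L) * h := mul_le_mul_of_nonneg_right h1 (by positivity)
          _ = μ / a := by rw [hμ]; field_simp
      have h3 : 2 * C * (μ / a) ≤ ε / 4 * μ ^ 2 := by
        have h4 : 8 * C ≤ μ * (a * ε) := hκ2.trans (mul_le_mul_of_nonneg_right hμκ (by positivity))
        have h5 : 2 * C * (μ / a) = (8 * C) * (μ / (4 * a)) := by field_simp; ring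
        rw [h5]
        calc (8 * C) * (μ / (4 * a)) ≤ (μ * (a * ε)) * (μ / (4 * a)) :=
              mul_le_mul_of_nonneg_right h4 (by positivity)
          _ = ε / 4 * μ ^ 2 := by field_simp
      calc 2 * (x * C * V) * h = 2 * C * (V * h) * x := by ring
        _ ≤ 2 * C * (μ / a) * x := by gcongr
        _ ≤ ε / 4 * μ ^ 2 * x := mul_le_mul_of_nonneg_right h3 hx0.le
        _ = ε / 4 * (μ ^ 2 * x) := by ring
    have k2 : 3 * e * (x * M ^ 2) ≤ ε / 4 * (μ ^ 2 * x) := by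
      have h1 : M ^ 2 ≤ 25 * μ ^ 2 := by
        have := pow_le_pow_left₀ hM0 hM5 2
        linarith
      calc 3 * e * (x * M ^ 2) ≤ 3 * e * (x * (25 * μ ^ 2)) := by gcongr
        _ = (75 * e) * (μ ^ 2 * x) := by ring
        _ ≤ ε / 4 * (μ ^ 2 * x) := by
            apply mul_le_mul_of_nonneg_right _ (by positivity)
            rw [he]
            linarith
    have k3 : (h : ℝ) ^ 2 * err * 4 ≤ ε / 4 * (μ ^ 2 * x) := by
      have h1 : (h : ℝ) ^ 2 = μ ^ 2 * L ^ 2 := by rw [hμ]; field_simp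
      have h2 : L ^ 2 * err * 4 ≤ ε / 4 * x := by
        have h3 : L ^ 2 * 1 ≤ L ^ 2 * L ^ 2 := by
          apply mul_le_mul_of_nonneg_left _ (by positivity)
          nlinarith
        have h4 : L ^ 2 * err ≤ L ^ 4 * err := mul_le_mul_of_nonneg_right (by nlinarith) herr0.le
        have h5 : 0 < ε * x := by positivity
        linarith
      calc (h : ℝ) ^ 2 * err * 4 = μ ^ 2 * (L ^ 2 * err * 4) := by rw [h1]; ring
        _ ≤ μ ^ 2 * (ε / 4 * x) := mul_le_mul_of_nonneg_left h2 (by positivity)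
        _ = ε / 4 * (μ ^ 2 * x) := by ring
    have hh2e : 0 ≤ (h : ℝ) ^ 2 * err := by positivity
    have k4 : (h : ℝ) * err ≤ (h : ℝ) ^ 2 * err := by
      apply mul_le_mul_of_nonneg_right _ herr0.le
      calc (h : ℝ) = h * 1 := by ring
        _ ≤ h * h := mul_le_mul_of_nonneg_left hh0 (by linarith)
        _ = (h : ℝ) ^ 2 := by ring
    have k5 : M * (h * err) ≤ (h : ℝ) ^ 2 * err := by
      calc M * (h * err) ≤ h * (h * err) := mul_le_mul_of_nonneg_right hMh (by positivity)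
        _ = (h : ℝ) ^ 2 * err := by ring
    have k6 : 2 * M * ((1 - e) * (x * M) - h * err) ≤ 2 * M * ∑ n ∈ T, G n :=
      mul_le_mul_of_nonneg_left hS1 (by linarith)
    have k7 : 0 ≤ ε * (μ ^ 2 * x) := by positivity
    have k8 : 2 * M * ((1 - e) * (x * M) - h * err) = 2 * (x * M ^ 2) - 2 * (e * (x * M ^ 2)) - 2 * (M * (h * err)) := by
      ring
    have k9 : h * (2 * (x * C * V) + err) + ((1 + e) * (x * M ^ 2) + h ^ 2 * err) =
        2 * (x * C * V) * h + h * err + x * M ^ 2 + e * (x * M ^ 2) + h ^ 2 * err := by ring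
    have k10 : M ^ 2 * x = x * M ^ 2 := by ring
    have k11 : 3 * e * (x * M ^ 2) = 3 * (e * (x * M ^ 2)) := by ring
    rw [k8] at k6
    rw [k9] at hS2
    rw [k11] at k2
    rw [k10]
    linarith

end Pool.Agent.H67.SW
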