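import Pool.Agent.H67.SW.Def

/-!
# Module Wz: Selberg's weights on rough numbers

PROOF. Copy of `H24/AB/Wt.lean` with `gs m` replaced by `gz z m` (`gz z m = gs m` if `rg z m`, else `0`), `Ss R` by `Sz z R`, `Gd` by `Gz`, `lam` by `lz`.
In `d_Gd_le`: for `d` squarefree; if `rg z d` fails then `Gz z R d = 0` (a multiple `m` of `d` with `rg z m` gives `rg z d`). Otherwise every `k ∣ d` has `rg z k`, and for `m = d n`:
`rg z (k n)`; `gz_div_sum`: `d gz z (d n) = ∑_{k ∣ d} gz z (k n)` if `rg z (d n)` (then all `k n` are rough).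
`lz_rg`: if `lz z R d ≠ 0` then `μ d ≠ 0` and some multiple `m ∈ [1, R]` of `d` has `gz z m ≠ 0`.
`nz_prime`: the divisors `≤ R` of a prime `p > R` are `{1}`.
-/

set_option autoImplicit false

namespace Pool.Agent.H67.SW

open Finset

theorem gz_nonneg (z : ℝ) (m : ℕ) : 0 ≤ gz z m := by
  unfold gz
  split_ifs
  · positivity
  · exact le_refl _

private theorem rg_dvd {z : ℝ} {m n : ℕ} (h : m ∣ n) (hn : rg z n) : rg z m :=
  fun p hp hpm => hn p hp (hpm.trans h)

private theorem rg_one (z : ℝ) : rg z 1 := by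
  intro p hp h
  exact absurd (Nat.dvd_one.1 h) hp.one_lt.ne'

private theorem gz_of {z : ℝ} {m : ℕ} (h1 : Squarefree m) (h2 : rg z m) :
    gz z m = 1 / (Nat.totient m : ℝ) := by
  unfold gz
  rw [if_pos ⟨h1, h2⟩]

private theorem gz_not {z : ℝ} {m : ℕ} (h : ¬ (Squarefree m ∧ rg z m)) : gz z m = 0 := by
  unfold gz
  rw [if_neg h]

private theorem gz_one (z : ℝ) : gz z 1 = 1 := by
  rw [gz_of squarefree_one (rg_one z)]
  simp

theorem Sz_pos (z : ℝ) (R : ℕ) (hR : 1 ≤ R) : 0 < Sz z R := by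
  unfold Sz
  apply Finset.sum_pos' (fun i _ => gz_nonneg z i)
  refine ⟨1, Finset.mem_Icc.2 ⟨le_refl _, hR⟩, ?_⟩
  rw [gz_one]
  exact one_pos

theorem lz_one (z : ℝ) (R : ℕ) (hR : 1 ≤ R) : lz z R 1 = 1 := by
  have h := Sz_pos z R hR
  have hG : Gz z R 1 = Sz z R := by
    unfold Gz Sz
    rw [Finset.filter_true_of_mem]
    intro m _
    exact one_dvd m
  unfold lz
  rw [hG]
  simp [h.ne']

theorem lz_rg (z : ℝ) (R d : ℕ) (h : lz z R d ≠ 0) : Squarefree d ∧ rg z d ∧ d ≤ R := by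
  unfold lz at h
  have h1 : (ArithmeticFunction.moebius d : ℝ) ≠ 0 := by
    intro h0
    apply h
    rw [h0]
    simp
  have h2 : Gz z R d ≠ 0 := by
    intro h0
    apply h
    rw [h0]
    simp
  have hsq : Squarefree d := by
    by_contra hns
    apply h1
    rw [ArithmeticFunction.moebius_eq_zero_of_not_squarefree hns]
    simp
  unfold Gz at h2
  obtain ⟨m, hm, hm0⟩ := Finset.exists_ne_zero_of_sum_ne_zero h2
  rw [Finset.mem_filter, Finset.mem_Icc] at hm
  have h3 : Squarefree m ∧ rg z m := by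
    by_contra h4
    exact hm0 (gz_not h4)
  refine ⟨hsq, rg_dvd hm.2 h3.2, (Nat.le_of_dvd (by omega) hm.2).trans hm.1.2⟩

private theorem gz_div_sum (z : ℝ) (d n : ℕ) (hdn : Squarefree (d * n)) (hr : rg z (d * n))
    (hn : 0 < n) : (d : ℝ) * gz z (d * n) = ∑ k ∈ d.divisors, gz z (k * n) := by
  have hsq := Nat.squarefree_mul_iff.1 hdn
  obtain ⟨hcop, hd, hnn⟩ := hsq
  have hd0 : d ≠ 0 := hd.ne_zero
  have hφd : (0 : ℝ) < (Nat.totient d : ℝ) := by
    exact_mod_cast Nat.totient_pos.2 (Nat.pos_of_ne_zero hd0)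
  have hφn : (0 : ℝ) < (Nat.totient n : ℝ) := by
    exact_mod_cast Nat.totient_pos.2 hn
  have h1 : ∀ k ∈ d.divisors, gz z (k * n) =
      (Nat.totient (d / k) : ℝ) / (Nat.totient d * Nat.totient n) := by
    intro k hk
    have hkd : k ∣ d := Nat.dvd_of_mem_divisors hk
    have hk0 : 0 < k := Nat.pos_of_mem_divisors hk
    have hkn : k * n ∣ d * n := Nat.mul_dvd_mul_right hkd n
    have hcopk : Nat.Coprime k n := Nat.Coprime.coprime_dvd_left hkd hcop
    have hsqk : Squarefree (k * n) := Squarefree.squarefree_of_dvd hkn hdn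
    have hcopd : Nat.Coprime k (d / k) := by
      have hh : k * (d / k) = d := Nat.mul_div_cancel' hkd
      have hh2 : Squarefree (k * (d / k)) := by rw [hh]; exact hd
      exact (Nat.squarefree_mul_iff.1 hh2).1
    have hφ : Nat.totient d = Nat.totient k * Nat.totient (d / k) := by
      have hh : k * (d / k) = d := Nat.mul_div_cancel' hkd
      rw [← Nat.totient_mul hcopd, hh]
    have hφk : (0 : ℝ) < (Nat.totient k : ℝ) := by
      exact_mod_cast Nat.totient_pos.2 hk0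
    have hdk0 : 0 < d / k := Nat.div_pos (Nat.le_of_dvd (Nat.pos_of_ne_zero hd0) hkd) hk0
    have hφdk : (0 : ℝ) < (Nat.totient (d / k) : ℝ) := by
      exact_mod_cast Nat.totient_pos.2 hdk0
    rw [gz_of hsqk (rg_dvd hkn hr), Nat.totient_mul hcopk, hφ]
    push_cast
    field_simp
  rw [Finset.sum_congr rfl h1, ← Finset.sum_div]
  have h2 : ∑ k ∈ d.divisors, (Nat.totient (d / k) : ℝ) = d := by
    have h3 : ∑ k ∈ d.divisors, Nat.totient (d / k) = d := by
      rw [Nat.sum_div_divisors d Nat.totient, Nat.sum_totient]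
    exact_mod_cast h3
  rw [h2, gz_of hdn hr, Nat.totient_mul hcop]
  push_cast
  field_simp

private theorem d_Gz_le (z : ℝ) (R d : ℕ) (hd : Squarefree d) : (d : ℝ) * Gz z R d ≤ Sz z R := by
  have hd0 : d ≠ 0 := hd.ne_zero
  have hdpos : 0 < d := Nat.pos_of_ne_zero hd0
  obtain ⟨S, hS⟩ : ∃ S : Finset ℕ, ∀ m, m ∈ S ↔ (m ∈ Icc 1 R ∧ d ∣ m ∧ Squarefree m ∧ rg z m) := by
    classical
    exact ⟨(Icc 1 R).filter (fun m => d ∣ m ∧ Squarefree m ∧ rg z m), fun m => by
      rw [Finset.mem_filter]⟩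
  have h1 : Gz z R d = ∑ m ∈ S, gz z m := by
    unfold Gz
    symm
    apply Finset.sum_subset
    · intro m hm
      rw [hS] at hm
      rw [Finset.mem_filter]
      exact ⟨hm.1, hm.2.1⟩
    · intro m hm hm'
      rw [Finset.mem_filter] at hm
      refine gz_not ?_
      intro hsq
      apply hm'
      rw [hS]
      exact ⟨hm.1, hm.2, hsq⟩
  have hm_facts : ∀ m ∈ S, d * (m / d) = m ∧ 0 < m / d ∧ Nat.Coprime d (m / d) ∧ m ≤ R ∧
      Squarefree (d * (m / d)) ∧ rg z (d * (m / d)) := by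
    intro m hm
    rw [hS, Finset.mem_Icc] at hm
    obtain ⟨⟨hm1, hmR⟩, hdm, hsq, hrg⟩ := hm
    have hmd : d * (m / d) = m := Nat.mul_div_cancel' hdm
    have hsq' : Squarefree (d * (m / d)) := by rw [hmd]; exact hsq
    refine ⟨hmd, Nat.div_pos (Nat.le_of_dvd (by omega) hdm) hdpos,
      (Nat.squarefree_mul_iff.1 hsq').1, hmR, hsq', by rw [hmd]; exact hrg⟩
  have h2 : (d : ℝ) * Gz z R d = ∑ w ∈ S ×ˢ d.divisors, gz z (w.2 * (w.1 / d)) := by
    rw [h1, Finset.mul_sum, Finset.sum_product]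
    apply Finset.sum_congr rfl
    intro m hm
    obtain ⟨hmd, hpos, hcop, hmR, hsq', hrg'⟩ := hm_facts m hm
    have h3 := gz_div_sum z d (m / d) hsq' hrg' hpos
    rw [hmd] at h3
    exact h3
  have hinj : Set.InjOn (fun w : ℕ × ℕ => w.2 * (w.1 / d)) (S ×ˢ d.divisors : Finset (ℕ × ℕ)) := by
    rintro ⟨m, k⟩ hz ⟨m', k'⟩ hz' heq
    rw [Finset.mem_coe, Finset.mem_product] at hz hz'
    obtain ⟨hmd, hpos, hcop, hmR, hsq', -⟩ := hm_facts m hz.1
    obtain ⟨hmd', hpos', hcop', hmR', hsq'', -⟩ := hm_facts m' hz'.1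
    have hk : k ∣ d := Nat.dvd_of_mem_divisors hz.2
    have hk' : k' ∣ d := Nat.dvd_of_mem_divisors hz'.2
    have hk0 : 0 < k := Nat.pos_of_mem_divisors hz.2
    have e1 : Nat.gcd (k * (m / d)) d = k := by
      rw [Nat.Coprime.gcd_mul_right_cancel k hcop.symm]
      exact Nat.gcd_eq_left hk
    have e2 : Nat.gcd (k' * (m' / d)) d = k' := by
      rw [Nat.Coprime.gcd_mul_right_cancel k' hcop'.symm]
      exact Nat.gcd_eq_left hk'
    simp only at heq
    have hkk : k = k' := by rw [← e1, ← e2, heq]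
    subst hkk
    have hmm : m / d = m' / d := Nat.eq_of_mul_eq_mul_left hk0 heq
    have : m = m' := by rw [← hmd, ← hmd', hmm]
    rw [this]
  rw [h2]
  have h4 : ∑ w ∈ S ×ˢ d.divisors, gz z (w.2 * (w.1 / d)) =
      ∑ y ∈ (S ×ˢ d.divisors).image (fun w : ℕ × ℕ => w.2 * (w.1 / d)), gz z y :=
    (Finset.sum_image hinj).symm
  rw [h4]
  unfold Sz
  apply Finset.sum_le_sum_of_subset_of_nonneg
  · intro y hy
    rw [Finset.mem_image] at hy
    obtain ⟨⟨m, k⟩, hz, rfl⟩ := hy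
    rw [Finset.mem_product] at hz
    obtain ⟨hmd, hpos, hcop, hmR, hsq', -⟩ := hm_facts m hz.1
    have hk : k ∣ d := Nat.dvd_of_mem_divisors hz.2
    have hk0 : 0 < k := Nat.pos_of_mem_divisors hz.2
    have hkd : k ≤ d := Nat.le_of_dvd hdpos hk
    rw [Finset.mem_Icc]
    constructor
    · exact Nat.mul_pos hk0 hpos
    · calc k * (m / d) ≤ d * (m / d) := Nat.mul_le_mul_right _ hkd
        _ = m := hmd
        _ ≤ R := hmR
  · intro i _ _
    exact gz_nonneg z i

theorem lz_abs (z : ℝ) (R d : ℕ) (hR : 1 ≤ R) : |lz z R d| ≤ 1 := by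
  by_cases hd : Squarefree d
  · have h := Sz_pos z R hR
    have hG : 0 ≤ Gz z R d := by
      unfold Gz
      exact Finset.sum_nonneg (fun i _ => gz_nonneg z i)
    have h1 := d_Gz_le z R d hd
    have hμ : |(ArithmeticFunction.moebius d : ℝ)| ≤ 1 := by
      exact_mod_cast ArithmeticFunction.abs_moebius_le_one
    unfold lz
    rw [abs_div, abs_of_pos h, div_le_one h, mul_assoc, abs_mul,
      abs_of_nonneg (mul_nonneg (Nat.cast_nonneg d) hG)]
    calc |(ArithmeticFunction.moebius d : ℝ)| * (d * Gz z R d) ≤ 1 * (d * Gz z R d) :=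
          mul_le_mul_of_nonneg_right hμ (mul_nonneg (Nat.cast_nonneg d) hG)
      _ ≤ Sz z R := by rw [one_mul]; exact h1
  · have h0 : lz z R d = 0 := by
      by_contra hne
      exact hd (lz_rg z R d hne).1
    rw [h0, abs_zero]
    exact zero_le_one

theorem nz_prime (z : ℝ) (R p : ℕ) (hR : 1 ≤ R) (hp : p.Prime) (hRp : R < p) : nz z R p = 1 := by
  unfold nz
  have h : (Icc 1 R).filter (fun d => d ∣ p) = {1} := by
    ext d
    rw [Finset.mem_filter, Finset.mem_Icc, Finset.mem_singleton]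
    constructor
    · rintro ⟨⟨h1, h2⟩, h3⟩
      rcases (Nat.dvd_prime hp).1 h3 with h4 | h4
      · exact h4
      · omega
    · rintro rfl
      exact ⟨⟨le_refl _, hR⟩, one_dvd p⟩
  rw [h, Finset.sum_singleton, lz_one z R hR, one_pow]

end Pool.Agent.H67.SW
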